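import Mathlib

/-!
# Fractions of finite sets
-/

namespace Pool.Agent.SR

open Finset

section Fr

open Classical in
/-- The fraction of the elements of the finite type `Ω` with property `p`. -/
noncomputable def fr {Ω : Type*} [Fintype Ω] (p : Ω → Prop) : ℝ :=
  ((univ.filter p).card : ℝ) / (Fintype.card Ω : ℝ)

variable {Ω : Type*} [Fintype Ω]

theorem fr_eq (p : Ω → Prop) [DecidablePred p] :
    fr p = ((univ.filter p).card : ℝ) / (Fintype.card Ω : ℝ) := by
  unfold fr
  congr

theorem fr_nonneg (p : Ω → Prop) : 0 ≤ fr p := by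
  unfold fr; positivity

theorem fr_mono {p q : Ω → Prop} (h : ∀ ω, p ω → q ω) : fr p ≤ fr q := by
  classical
  rw [fr_eq p, fr_eq q]
  have : (univ.filter p).card ≤ (univ.filter q).card := by
    refine Finset.card_le_card fun ω hω => ?_
    simp only [Finset.mem_filter, Finset.mem_univ, true_and] at hω ⊢
    exact h ω hω
  gcongr

theorem fr_congr {p q : Ω → Prop} (h : ∀ ω, p ω ↔ q ω) : fr p = fr q :=
  le_antisymm (fr_mono fun ω => (h ω).1) (fr_mono fun ω => (h ω).2)

theorem fr_le_one (p : Ω → Prop) : fr p ≤ 1 := by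
  classical
  rw [fr_eq p]
  apply div_le_one_of_le₀ _ (by positivity)
  exact_mod_cast Finset.card_le_univ _

theorem exists_not_of_fr_lt [Nonempty Ω] {p : Ω → Prop} (h : fr p < 1) : ∃ ω, ¬ p ω := by
  classical
  by_contra hn
  push Not at hn
  rw [fr_eq p] at h
  have : (univ.filter p) = univ := Finset.filter_true_of_mem fun ω _ => hn ω
  rw [this, Finset.card_univ, div_self] at h
  · exact lt_irrefl _ h
  · exact_mod_cast Fintype.card_ne_zero

theorem fr_or_le (p q : Ω → Prop) : fr (fun ω => p ω ∨ q ω) ≤ fr p + fr q := by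
  classical
  rw [fr_eq p, fr_eq q, fr_eq, ← add_div]
  gcongr
  have : (univ.filter fun ω => p ω ∨ q ω).card ≤ (univ.filter p).card + (univ.filter q).card := by
    rw [Finset.filter_or]
    exact Finset.card_union_le _ _
  exact_mod_cast this

theorem fr_exists_le {ι : Type*} (I : Finset ι) (p : ι → Ω → Prop) :
    fr (fun ω => ∃ i ∈ I, p i ω) ≤ ∑ i ∈ I, fr (p i) := by
  classical
  induction I using Finset.induction_on with
  | empty =>
    rw [Finset.sum_empty, fr_eq]
    simp
  | insert a I ha ih =>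
    rw [Finset.sum_insert ha]
    refine le_trans ?_ (add_le_add le_rfl ih)
    refine le_trans (fr_mono ?_) (fr_or_le _ _)
    rintro ω ⟨i, hi, h⟩
    rcases Finset.mem_insert.1 hi with rfl | hi
    · exact Or.inl h
    · exact Or.inr ⟨i, hi, h⟩

theorem fr_pi {ι X : Type*} [Fintype ι] [DecidableEq ι] [Fintype X] (q : ι → X → Prop) :
    fr (fun f : ι → X => ∀ i, q i (f i)) = ∏ i, fr (q i) := by
  classical
  rw [fr_eq]
  simp_rw [fr_eq]
  rw [Finset.prod_div_distrib]
  congr 1
  · have : (univ.filter fun f : ι → X => ∀ i, q i (f i)) =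
        Fintype.piFinset fun i => univ.filter (q i) := by
      ext f
      simp [Fintype.mem_piFinset]
    rw [this, Fintype.card_piFinset]
    push_cast
    rfl
  · rw [Fintype.card_fun, Finset.prod_const, Finset.card_univ]
    push_cast
    rfl

theorem fr_true [Nonempty Ω] : fr (fun _ : Ω => True) = 1 := by
  classical
  rw [fr_eq, Finset.filter_true_of_mem (fun _ _ => trivial), Finset.card_univ, div_self]
  exact_mod_cast Fintype.card_ne_zero

theorem fr_not [Nonempty Ω] (p : Ω → Prop) : fr (fun ω => ¬ p ω) = 1 - fr p := by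
  classical
  rw [fr_eq p, fr_eq]
  have h : (univ.filter p).card + (univ.filter fun ω => ¬ p ω).card = Fintype.card Ω := by
    rw [Finset.card_filter_add_card_filter_not, Finset.card_univ]
  have h0 : (Fintype.card Ω : ℝ) ≠ 0 := by exact_mod_cast Fintype.card_ne_zero
  have h' : ((univ.filter p).card : ℝ) + ((univ.filter fun ω => ¬ p ω).card : ℝ) =
      (Fintype.card Ω : ℝ) := by exact_mod_cast h
  rw [eq_sub_iff_add_eq, ← add_div, add_comm, h', div_self h0]

theorem fr_mem [DecidableEq Ω] (T : Finset Ω) :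
    fr (fun ω => ω ∈ T) = (T.card : ℝ) / (Fintype.card Ω : ℝ) := by
  classical
  rw [fr_eq]
  congr 2
  congr 1
  ext ω; simp

/-- The average of a real function on a finite type. -/
noncomputable def av (f : Ω → ℝ) : ℝ := (∑ ω, f ω) / (Fintype.card Ω : ℝ)

theorem av_mono {f g : Ω → ℝ} (h : ∀ ω, f ω ≤ g ω) : av f ≤ av g := by
  unfold av
  gcongr with ω
  exact h ω

theorem av_nonneg {f : Ω → ℝ} (h : ∀ ω, 0 ≤ f ω) : 0 ≤ av f := by
  unfold av
  exact div_nonneg (Finset.sum_nonneg fun ω _ => h ω) (by positivity)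

theorem fr_eq_av (p : Ω → Prop) [DecidablePred p] :
    fr p = av fun ω => if p ω then (1 : ℝ) else 0 := by
  rw [fr_eq]
  unfold av
  rw [Finset.sum_ite, Finset.sum_const_zero, add_zero, Finset.sum_const, nsmul_eq_mul, mul_one]

theorem av_const_mul (c : ℝ) (f : Ω → ℝ) : av (fun ω => c * f ω) = c * av f := by
  unfold av
  rw [← Finset.mul_sum, mul_div_assoc]

theorem av_mul_const (c : ℝ) (f : Ω → ℝ) : av (fun ω => f ω * c) = av f * c := by
  unfold av
  rw [← Finset.sum_mul, div_mul_eq_mul_div]

theorem av_add (f g : Ω → ℝ) : av (fun ω => f ω + g ω) = av f + av g := by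
  unfold av
  rw [Finset.sum_add_distrib, add_div]

theorem av_one [Nonempty Ω] : av (fun _ : Ω => (1 : ℝ)) = 1 := by
  unfold av
  rw [Finset.sum_const, Finset.card_univ, nsmul_eq_mul, mul_one, div_self]
  exact_mod_cast Fintype.card_ne_zero

/-- Markov inequality. -/
theorem markov {f : Ω → ℝ} (hf : ∀ ω, 0 ≤ f ω) {c : ℝ} (p : Ω → Prop) (h : ∀ ω, p ω → c ≤ f ω) :
    fr p * c ≤ av f := by
  classical
  rw [fr_eq_av, ← av_mul_const]
  refine av_mono fun ω => ?_
  split_ifs with hp
  · rw [one_mul]; exact h ω hp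
  · rw [zero_mul]; exact hf ω

theorem av_cons {X : Type*} [Fintype X] {n : ℕ} (f : (Fin (n + 1) → X) → ℝ) :
    av f = av fun E : Fin n → X => av fun x : X => f (Fin.cons x E) := by
  classical
  unfold av
  rw [← Finset.sum_div, div_div]
  congr 1
  · rw [← (Fin.consEquiv fun _ : Fin (n + 1) => X).sum_comp, Fintype.sum_prod_type_right]
    rfl
  · rw [Fintype.card_fun, Fintype.card_fun, Fintype.card_fin, Fintype.card_fin, pow_succ]
    push_cast
    ring

theorem fr_cons_le {X : Type*} [Fintype X] [Nonempty X] {n : ℕ} (p : (Fin (n + 1) → X) → Prop)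
    {r : ℝ} (h : ∀ E : Fin n → X, fr (fun x : X => p (Fin.cons x E)) ≤ r) : fr p ≤ r := by
  classical
  rw [fr_eq_av, av_cons]
  have h1 : ∀ E : Fin n → X, (av fun x : X => if p (Fin.cons x E) then (1 : ℝ) else 0) ≤ r := by
    intro E
    rw [← fr_eq_av (fun x : X => p (Fin.cons x E))]
    exact h E
  have h2 : (av fun E : Fin n → X => r) = r := by
    have := av_const_mul (Ω := Fin n → X) r fun _ => (1 : ℝ)
    simp only [mul_one] at this
    rw [this, av_one, mul_one]
  rw [← h2]
  exact av_mono h1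

end Fr

end Pool.Agent.SR
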