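import Mathlib
import Pool.Agent.Lib_helper80.SR.Core

/-!
# Closure of a small set of variables, consistency, and rigidity of small parities
-/

namespace Pool.Agent.SR

open Finset

section Rigid

variable {V ι : Type*} [Fintype V] [DecidableEq V] [Fintype ι] [DecidableEq ι] {k : ℕ}

/-- The vertices of an edge. -/
def edge (E : ι → Fin k → V) (j : ι) : Finset V := univ.image (E j)

omit [Fintype V] [Fintype ι] [DecidableEq ι] in
theorem edge_card (E : ι → Fin k → V) (j : ι) : (edge E j).card ≤ k := by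
  unfold edge
  exact Finset.card_image_le.trans (by simp)

omit [Fintype V] [Fintype ι] [DecidableEq ι] in
theorem mem_edge (E : ι → Fin k → V) (j : ι) (i : Fin k) : E j i ∈ edge E j :=
  Finset.mem_image_of_mem _ (Finset.mem_univ _)

/-- The domain of a partial assignment. -/
def dom (ρ : V → Option Bool) : Finset V := univ.filter fun v => ρ v ≠ none

variable {E : ι → Fin k → V} {β : ι → ZMod 2} {ρ : V → Option Bool} {s w θ : ℕ}

omit [Fintype ι] in
theorem once_union_subset (G₀ G : Finset ι) (hd : Disjoint G G₀) :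
    once E ρ (G₀ ∪ G) ⊆ once E ρ G₀ ∪ (once E ρ G \ G₀.biUnion (edge E)) := by
  classical
  intro v hv
  rw [once, Finset.mem_filter] at hv
  obtain ⟨-, hρ, h1⟩ := hv
  have hsplit : ((G₀ ∪ G) ×ˢ (univ : Finset (Fin k))).filter (fun p => E p.1 p.2 = v) =
      ((G₀ ×ˢ (univ : Finset (Fin k))).filter fun p => E p.1 p.2 = v) ∪
        ((G ×ˢ (univ : Finset (Fin k))).filter fun p => E p.1 p.2 = v) := by
    rw [Finset.union_product, Finset.filter_union]
  have hdisj : Disjoint ((G₀ ×ˢ (univ : Finset (Fin k))).filter fun p => E p.1 p.2 = v)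
      ((G ×ˢ (univ : Finset (Fin k))).filter fun p => E p.1 p.2 = v) := by
    rw [Finset.disjoint_left]
    intro p hp1 hp2
    simp only [Finset.mem_filter, Finset.mem_product] at hp1 hp2
    exact Finset.disjoint_left.1 hd hp2.1.1 hp1.1.1
  rw [hsplit, Finset.card_union_of_disjoint hdisj] at h1
  by_cases h0 : ((G₀ ×ˢ (univ : Finset (Fin k))).filter fun p => E p.1 p.2 = v).card = 0
  · refine Finset.mem_union_right _ (Finset.mem_sdiff.2 ⟨?_, ?_⟩)
    · rw [once, Finset.mem_filter]
      refine ⟨Finset.mem_univ _, hρ, by omega⟩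
    · intro hm
      obtain ⟨j, hj, hv⟩ := Finset.mem_biUnion.1 hm
      obtain ⟨i, _, hi⟩ := Finset.mem_image.1 hv
      rw [Finset.card_eq_zero] at h0
      have : (j, i) ∈ ((G₀ ×ˢ (univ : Finset (Fin k))).filter fun p => E p.1 p.2 = v) := by
        simp [hj, hi]
      rw [h0] at this
      exact absurd this (Finset.notMem_empty _)
  · refine Finset.mem_union_left _ ?_
    rw [once, Finset.mem_filter]
    refine ⟨Finset.mem_univ _, hρ, by omega⟩

/-- Closure of a small set of variables. -/
theorem closure_exists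
    (hSE : ∀ G : Finset ι, G.card ≤ s → (θ + 1) * G.card ≤ (once E ρ G).card)
    (Y : Finset V) (hY : Y.card ≤ w) (hws : w ≤ s) :
    ∃ G₀ : Finset ι, G₀.card ≤ w ∧ ∀ G : Finset ι, G.Nonempty → Disjoint G G₀ →
      G.card + w ≤ s → θ * G.card < (once E ρ G \ (Y ∪ G₀.biUnion (edge E))).card := by
  classical
  set 𝒢 : Finset (Finset ι) := univ.filter fun G =>
    G.card ≤ s ∧ (once E ρ G \ Y).card ≤ θ * G.card with h𝒢
  have hne : 𝒢.Nonempty := by
    refine ⟨∅, ?_⟩
    rw [h𝒢, Finset.mem_filter]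
    refine ⟨Finset.mem_univ _, by simp, ?_⟩
    have : once E ρ (∅ : Finset ι) = ∅ := by
      ext v
      simp [once]
    rw [this]
    simp
  obtain ⟨G₀, hG₀, hmax⟩ := Finset.exists_max_image 𝒢 (fun G => G.card) hne
  have hsmall : ∀ G ∈ 𝒢, G.card ≤ w := by
    intro G hG
    rw [h𝒢, Finset.mem_filter] at hG
    obtain ⟨-, h1, h2⟩ := hG
    have h3 := hSE G h1
    have h4 : (once E ρ G).card ≤ (once E ρ G \ Y).card + Y.card :=
      Finset.card_le_card_sdiff_add_card
    have h5 : (θ + 1) * G.card = θ * G.card + G.card := by ring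
    omega
  refine ⟨G₀, hsmall _ hG₀, ?_⟩
  intro G hGne hd hGs
  have hc : (G₀ ∪ G).card = G₀.card + G.card := by
    rw [Finset.card_union_of_disjoint hd.symm]
  have hGpos := Finset.card_pos.2 hGne
  have hw0 := hsmall _ hG₀
  have hnot : G₀ ∪ G ∉ 𝒢 := by
    intro hm
    have := hmax _ hm
    rw [hc] at this
    omega
  rw [h𝒢, Finset.mem_filter] at hnot
  push Not at hnot
  have h1 := hnot (Finset.mem_univ _) (by rw [hc]; omega)
  rw [h𝒢, Finset.mem_filter] at hG₀
  have h2 := hG₀.2.2
  have h3 : once E ρ (G₀ ∪ G) \ Y ⊆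
      (once E ρ G₀ \ Y) ∪ (once E ρ G \ (Y ∪ G₀.biUnion (edge E))) := by
    intro v hv
    rw [Finset.mem_sdiff] at hv
    rcases Finset.mem_union.1 (once_union_subset G₀ G hd hv.1) with h | h
    · exact Finset.mem_union_left _ (Finset.mem_sdiff.2 ⟨h, hv.2⟩)
    · rw [Finset.mem_sdiff] at h
      refine Finset.mem_union_right _ (Finset.mem_sdiff.2 ⟨h.1, ?_⟩)
      rw [Finset.mem_union]
      rintro (h' | h')
      · exact hv.2 h'
      · exact h.2 h'
  have h4 := (Finset.card_le_card h3).trans (Finset.card_union_le _ _)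
  rw [hc, Nat.mul_add] at h1
  omega

omit [Fintype ι] in
/-- Consistency of small systems under a partial assignment with expansion. -/
theorem consistent {G₀ : Finset ι} (hG₀ : ∀ x, Agree ρ x → ∀ j ∈ G₀, EqAt E β j x)
    (hx : ∃ x, Agree ρ x)
    (hSE : ∀ G : Finset ι, G.Nonempty → Disjoint G G₀ → G.card ≤ s →
      θ * G.card < (once E ρ G).card)
    (G : Finset ι) (hG : G.card ≤ s) : ∃ x, Agree ρ x ∧ ∀ j ∈ G, EqAt E β j x := by
  classical
  have key : ∀ N, ∀ G : Finset ι, G.card = N → Disjoint G G₀ → G.card ≤ s →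
      ∃ x, Agree ρ x ∧ ∀ j ∈ G, EqAt E β j x := by
    intro N
    induction N with
    | zero =>
      intro G hG _ _
      obtain ⟨x, hx⟩ := hx
      refine ⟨x, hx, fun j hj => ?_⟩
      rw [Finset.card_eq_zero.1 hG] at hj
      exact absurd hj (Finset.notMem_empty _)
    | succ N ih =>
      intro G hG hd hGs
      have hne : G.Nonempty := Finset.card_pos.1 (by omega)
      have h1 := hSE G hne hd hGs
      have hne1 : (once E ρ G).Nonempty := Finset.card_pos.1 (by omega)
      obtain ⟨v, hv⟩ := hne1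
      obtain ⟨j, hj, hflip⟩ := flip_exists (β := β) hv
      have hc : (G.erase j).card = N := by
        rw [Finset.card_erase_of_mem hj]; omega
      obtain ⟨x, hx1, hx2⟩ := ih (G.erase j) hc
        (Finset.disjoint_of_subset_left (Finset.erase_subset _ _) hd) (by omega)
      obtain ⟨x', h1, h2, -⟩ := hflip x hx1 hx2
      exact ⟨x', h1, h2⟩
  obtain ⟨x, h1, h2⟩ := key _ (G \ G₀) rfl Finset.sdiff_disjoint
    ((Finset.card_le_card Finset.sdiff_subset).trans hG)
  refine ⟨x, h1, fun j hj => ?_⟩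
  by_cases hj0 : j ∈ G₀
  · exact hG₀ x h1 j hj0
  · exact h2 j (Finset.mem_sdiff.2 ⟨hj, hj0⟩)

omit [Fintype V] in
theorem sum_flip (P : Finset V) {u : V} (hu : u ∈ P) (x : V → Bool) :
    ∑ v ∈ P, (if Function.update x u (!x u) v then (1 : ZMod 2) else 0) =
      ∑ v ∈ P, (if x v then (1 : ZMod 2) else 0) + 1 := by
  classical
  rw [← Finset.add_sum_erase P _ hu, ← Finset.add_sum_erase P
    (fun v => if x v then (1 : ZMod 2) else 0) hu]
  have h1 : ∑ v ∈ P.erase u, (if Function.update x u (!x u) v then (1 : ZMod 2) else 0) =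
      ∑ v ∈ P.erase u, (if x v then (1 : ZMod 2) else 0) := by
    refine Finset.sum_congr rfl fun v hv => ?_
    rw [Function.update_of_ne (Finset.ne_of_mem_erase hv)]
  rw [h1, Function.update_self]
  have key : ∀ (c : Bool) (a : ZMod 2), (if (!c) = true then (1 : ZMod 2) else 0) + a =
      (if c = true then (1 : ZMod 2) else 0) + a + 1 := by decide
  exact key _ _

omit [Fintype ι] in
theorem once_single (hinj : ∀ j, Function.Injective (E j)) (j : ι) :
    once E ρ {j} = edge E j \ dom ρ := by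
  classical
  ext v
  rw [once, Finset.mem_filter, Finset.mem_sdiff]
  simp only [Finset.mem_univ, true_and, dom, Finset.mem_filter, not_not]
  constructor
  · rintro ⟨h1, h2⟩
    refine ⟨?_, h1⟩
    obtain ⟨p, hp⟩ := Finset.card_pos.1 (by omega :
      0 < (({j} ×ˢ (univ : Finset (Fin k))).filter fun p : ι × Fin k => E p.1 p.2 = v).card)
    simp only [Finset.mem_filter, Finset.mem_product, Finset.mem_singleton, Finset.mem_univ,
      and_true] at hp
    rw [← hp.2, hp.1]
    exact mem_edge E j p.2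
  · rintro ⟨h1, h2⟩
    refine ⟨h2, ?_⟩
    obtain ⟨i, _, hi⟩ := Finset.mem_image.1 h1
    rw [Finset.card_eq_one]
    refine ⟨(j, i), ?_⟩
    ext ⟨j', i'⟩
    simp only [Finset.mem_filter, Finset.mem_product, Finset.mem_singleton, Finset.mem_univ,
      and_true, Prod.mk.injEq]
    constructor
    · rintro ⟨rfl, h⟩
      exact ⟨rfl, hinj _ (h.trans hi.symm)⟩
    · rintro ⟨rfl, rfl⟩
      exact ⟨rfl, hi⟩

omit [Fintype ι] in
/-- A small parity outside the domain of `ρ` which is a local consequence is the trace of an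
edge. -/
theorem rigid {G₀ : Finset ι} (hG₀ : ∀ x, Agree ρ x → ∀ j ∈ G₀, EqAt E β j x)
    (hx : ∃ x, Agree ρ x)
    (hSE : ∀ G : Finset ι, G.Nonempty → Disjoint G G₀ → G.card ≤ s →
      θ * G.card < (once E ρ G).card)
    (hinj : ∀ j, Function.Injective (E j)) (hk : k ≤ 2 * θ) {P : Finset V} (hP : P.Nonempty)
    (hPk : P.card ≤ k) (hPρ : ∀ u ∈ P, ρ u = none) {b : ZMod 2}
    (h : Loc E β ρ s fun x => ∑ u ∈ P, (if x u then (1 : ZMod 2) else 0) = b) :
    ∃ j, θ < (edge E j \ dom ρ).card ∧ P = edge E j \ dom ρ := by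
  classical
  have hsupp : Supp P fun x : V → Bool => ∑ u ∈ P, (if x u then (1 : ZMod 2) else 0) = b := by
    intro x x' hxx hh
    rw [← hh]
    refine Finset.sum_congr rfl fun u hu => ?_
    rw [hxx u hu]
  have hupd : ∀ x, Agree ρ x → ∀ u ∈ P, Agree ρ (Function.update x u (!x u)) := by
    intro x hx u hu v c hv
    have : v ≠ u := by
      rintro rfl
      rw [hPρ v hu] at hv
      exact absurd hv (by simp)
    rw [Function.update_of_ne this]
    exact hx v c hv
  obtain ⟨G, hGs, hG, hsub, hmin⟩ := h.minimal hsupp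
  have hGne : G.Nonempty := by
    rw [Finset.nonempty_iff_ne_empty]
    rintro rfl
    obtain ⟨x, hx⟩ := hx
    obtain ⟨u, hu⟩ := hP
    have h1 := hG x hx (fun j hj => absurd hj (Finset.notMem_empty _))
    have h2 := hG _ (hupd x hx u hu) (fun j hj => absurd hj (Finset.notMem_empty _))
    rw [sum_flip P hu x, h1] at h2
    have key : ∀ c : ZMod 2, ¬ c + 1 = c := by decide
    exact key _ h2
  have hd : Disjoint G G₀ := by
    rw [Finset.disjoint_left]
    intro j hj hj0
    have hlt : (G.erase j).card < G.card := Finset.card_erase_lt_of_mem hj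
    refine absurd (hmin (G.erase j) ?_) (not_le.2 hlt)
    intro x hx hxG
    refine hG x hx fun j' hj' => ?_
    by_cases hjj : j' = j
    · rw [hjj]; exact hG₀ x hx j hj0
    · exact hxG j' (Finset.mem_erase.2 ⟨hjj, hj'⟩)
  have h1 := hSE G hGne hd hGs
  have h2 := Finset.card_le_card hsub
  have hG1 : G.card = 1 := by
    have h3 : θ * G.card < θ * 2 := by omega
    have h4 := Nat.lt_of_mul_lt_mul_left h3
    have h5 := Finset.card_pos.2 hGne
    omega
  obtain ⟨j, rfl⟩ := Finset.card_eq_one.1 hG1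
  rw [once_single hinj, Finset.card_singleton, mul_one] at h1
  rw [once_single hinj] at hsub
  refine ⟨j, h1, Finset.Subset.antisymm ?_ hsub⟩
  intro u hu
  by_contra hun
  have hue : u ∉ edge E j := by
    intro hue
    apply hun
    refine Finset.mem_sdiff.2 ⟨hue, ?_⟩
    simp [dom, hPρ u hu]
  obtain ⟨x, hx1, hx2⟩ := consistent hG₀ hx hSE {j} hGs
  have h5 := hG x hx1 hx2
  have h6 := hG _ (hupd x hx1 u hu) (by
    intro j' hj'
    rw [Finset.mem_singleton] at hj'
    subst hj'
    unfold EqAt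
    rw [par_flip]
    have hc : (univ.filter fun i => E j' i = u) = ∅ := by
      ext i
      simp only [Finset.mem_filter, Finset.mem_univ, true_and, Finset.notMem_empty, iff_false]
      rintro rfl
      exact hue (mem_edge E j' i)
    rw [hc, Finset.card_empty, Nat.cast_zero, add_zero]
    exact hx2 j' (Finset.mem_singleton_self _))
  rw [sum_flip P hu x, h5] at h6
  have key : ∀ c : ZMod 2, ¬ c + 1 = c := by decide
  exact key _ h6

/-- The elements which are values of `f` on `I` an odd number of times. -/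
def oddOn (I : Finset (Fin k)) (f : Fin k → V) : Finset V :=
  univ.filter fun u => Odd (I.filter fun i => f i = u).card

theorem sum_oddOn (I : Finset (Fin k)) (f : Fin k → V) (x : V → Bool) :
    ∑ i ∈ I, (if x (f i) then (1 : ZMod 2) else 0) =
      ∑ u ∈ oddOn I f, (if x u then (1 : ZMod 2) else 0) := by
  classical
  rw [← Finset.sum_fiberwise I f]
  unfold oddOn
  rw [Finset.sum_filter]
  refine Finset.sum_congr rfl fun u _ => ?_
  have h1 : ∑ i ∈ I.filter (fun i => f i = u), (if x (f i) then (1 : ZMod 2) else 0) =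
      ∑ i ∈ I.filter (fun i => f i = u), (if x u then (1 : ZMod 2) else 0) := by
    refine Finset.sum_congr rfl fun i hi => ?_
    rw [(Finset.mem_filter.1 hi).2]
  rw [h1, Finset.sum_const, nsmul_eq_mul]
  split_ifs with h2 h3 h3
  · rw [mul_one]
    exact (ZMod.natCast_eq_one_iff_odd).2 h3
  · rw [mul_one]
    exact (ZMod.natCast_eq_zero_iff_even).2 (Nat.not_odd_iff_even.1 h3)
  · rw [mul_zero]
  · rw [mul_zero]

theorem oddOn_card_le (I : Finset (Fin k)) (f : Fin k → V) : (oddOn I f).card ≤ I.card := by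
  classical
  have : oddOn I f ⊆ I.image f := by
    intro u hu
    unfold oddOn at hu
    rw [Finset.mem_filter] at hu
    obtain ⟨i, hi⟩ := Finset.card_pos.1 (Odd.pos hu.2)
    rw [Finset.mem_filter] at hi
    exact Finset.mem_image.2 ⟨i, hi.1, hi.2⟩
  exact (Finset.card_le_card this).trans Finset.card_image_le

theorem mem_oddOn {I : Finset (Fin k)} {f : Fin k → V} {u : V} (hu : u ∈ oddOn I f) :
    ∃ i ∈ I, f i = u := by
  unfold oddOn at hu
  rw [Finset.mem_filter] at hu
  obtain ⟨i, hi⟩ := Finset.card_pos.1 (Odd.pos hu.2)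
  rw [Finset.mem_filter] at hi
  exact ⟨i, hi.1, hi.2⟩

end Rigid

end Pool.Agent.SR
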