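import Mathlib
import Pool.Agent.Lib_helper80.SR.Rigid

/-!
# Substitution redundancy steps preserve local consequence
-/

namespace Pool.Agent.SR

open Finset

section Subst

variable {V : Type*}

/-- The assignment `x` read through the substitution `ω`. -/
def sub (ω : Subst V) (x : V → Bool) : V → Bool := fun v =>
  match ω v with
  | Sum.inl b => b
  | Sum.inr l => x l.1 == l.2

/-- A variable on which the value of `v` after the substitution depends. -/
def tgt (ω : Subst V) (v : V) : V :=
  match ω v with
  | Sum.inl _ => v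
  | Sum.inr l => l.1

theorem sub_inl {ω : Subst V} {v : V} {b : Bool} (h : ω v = Sum.inl b) (x : V → Bool) :
    sub ω x v = b := by
  unfold sub; rw [h]

theorem sub_inr {ω : Subst V} {v : V} {l : Lit V} (h : ω v = Sum.inr l) (x : V → Bool) :
    sub ω x v = (x l.1 == l.2) := by
  unfold sub; rw [h]

theorem tgt_inr {ω : Subst V} {v : V} {l : Lit V} (h : ω v = Sum.inr l) : tgt ω v = l.1 := by
  unfold tgt; rw [h]

theorem sub_congr {ω : Subst V} {v : V} {x x' : V → Bool} (h : x (tgt ω v) = x' (tgt ω v)) :
    sub ω x v = sub ω x' v := by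
  cases hv : ω v with
  | inl b => rw [sub_inl hv, sub_inl hv]
  | inr l =>
    rw [tgt_inr hv] at h
    rw [sub_inr hv, sub_inr hv, h]

theorem app_inl {ω : Subst V} {l : Lit V} (h : app ω l = Sum.inl true) (x : V → Bool) :
    sub ω x l.1 = l.2 := by
  cases hv : ω l.1 with
  | inl b =>
    unfold app at h
    rw [hv] at h
    simp only [Sum.inl.injEq, beq_iff_eq] at h
    rw [sub_inl hv, h]
  | inr l' =>
    unfold app at h
    rw [hv] at h
    simp at h

theorem app_inr {ω : Subst V} {l u : Lit V} (h : app ω l = Sum.inr u) (x : V → Bool) :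
    sub ω x l.1 = l.2 ↔ x u.1 = u.2 := by
  cases hv : ω l.1 with
  | inl b =>
    unfold app at h
    rw [hv] at h
    simp at h
  | inr l' =>
    unfold app at h
    rw [hv] at h
    simp only [Sum.inr.injEq] at h
    rw [sub_inr hv]
    subst h
    cases h2 : l.2
    · simp only [Bool.false_eq_true, if_false, neg]
      cases x l'.1 <;> cases l'.2 <;> simp
    · simp only [if_true]
      cases x l'.1 <;> cases l'.2 <;> simp

theorem app_inr_tgt {ω : Subst V} {l u : Lit V} (h : app ω l = Sum.inr u) : u.1 = tgt ω l.1 := by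
  cases hv : ω l.1 with
  | inl b =>
    unfold app at h
    rw [hv] at h
    simp at h
  | inr l' =>
    rw [tgt_inr hv]
    unfold app at h
    rw [hv] at h
    simp only [Sum.inr.injEq] at h
    subst h
    split_ifs <;> rfl

theorem sat_of_ssat {ω : Subst V} {C : Clause V} (h : SSat ω C) (x : V → Bool) :
    Sat (sub ω x) C := by
  rcases h with ⟨l, hl, h⟩ | ⟨l, hl, l', hl', u, h1, h2⟩
  · exact ⟨l, hl, app_inl h x⟩
  · by_cases hx : x u.1 = u.2
    · exact ⟨l, hl, (app_inr h1 x).2 hx⟩
    · exact ⟨l', hl', (app_inr h2 x).2 (bool_ne_not hx)⟩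

variable [DecidableEq V]

theorem mem_simage {ω : Subst V} {C : Clause V} {u : Lit V} :
    u ∈ simage ω C ↔ ∃ l ∈ C, app ω l = Sum.inr u := by
  unfold simage
  rw [Finset.mem_biUnion]
  constructor
  · rintro ⟨l, hl, h⟩
    refine ⟨l, hl, ?_⟩
    cases ha : app ω l with
    | inl b => rw [ha] at h; exact absurd h (Finset.notMem_empty _)
    | inr l' => rw [ha] at h; rw [Finset.mem_singleton.1 h]
  · rintro ⟨l, hl, h⟩
    refine ⟨l, hl, ?_⟩
    rw [h]
    exact Finset.mem_singleton_self _

theorem vars_negs (C : Clause V) : vars (negs C) = vars C := by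
  unfold vars negs
  rw [Finset.image_image]
  rfl

theorem supp_sub {Y : Finset V} {ω : Subst V} {v : V} (hv : tgt ω v ∈ Y) (P : Bool → Prop) :
    Supp Y fun x => P (sub ω x v) := by
  intro x x' hx h
  rw [← sub_congr (hx _ hv)]
  exact h

end Subst

section Parity

variable {V ι : Type*} [DecidableEq V] [DecidableEq ι] {k : ℕ}

/-- Parity of a bit vector. -/
def bpar (a : Fin k → Bool) : ZMod 2 := ∑ i, if a i then 1 else 0

/-- The clause forbidding the values `a` on the edge `j`. -/
def clauseOf (E : ι → Fin k → V) (j : ι) (a : Fin k → Bool) : Clause V :=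
  univ.image fun i => (E j i, !a i)

/-- Tautological clause. -/
def Taut (C : Clause V) : Prop := ∃ l ∈ C, neg l ∈ C

open Classical in
/-- The CNF of a system of parity constraints. -/
noncomputable def cnf [Fintype ι] (E : ι → Fin k → V) (β : ι → ZMod 2) : CNF V :=
  ((univ : Finset (ι × (Fin k → Bool))).filter
    fun p => bpar p.2 ≠ β p.1 ∧ ¬ Taut (clauseOf E p.1 p.2)).image fun p => clauseOf E p.1 p.2

omit [DecidableEq V] in
theorem sat_of_taut {C : Clause V} (h : Taut C) (x : V → Bool) : Sat x C := by
  obtain ⟨l, hl, hn⟩ := h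
  by_cases hx : x l.1 = l.2
  · exact ⟨l, hl, hx⟩
  · exact ⟨neg l, hn, bool_ne_not hx⟩

omit [DecidableEq ι] in
theorem eqAt_iff (E : ι → Fin k → V) (β : ι → ZMod 2) (j : ι) (x : V → Bool) :
    EqAt E β j x ↔ ∀ a : Fin k → Bool, bpar a ≠ β j → Sat x (clauseOf E j a) := by
  constructor
  · intro h a ha
    by_contra hs
    apply ha
    rw [← show par E j x = β j from h]
    unfold bpar par
    refine Finset.sum_congr rfl fun i _ => ?_
    have : ¬ x (E j i) = !a i := by
      intro hx
      exact hs ⟨(E j i, !a i), Finset.mem_image_of_mem _ (Finset.mem_univ i), hx⟩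
    have h2 := bool_ne_not this
    rw [Bool.not_not] at h2
    rw [h2]
  · intro h
    by_contra hn
    obtain ⟨l, hl, hs⟩ := h (fun i => x (E j i)) hn
    unfold clauseOf at hl
    obtain ⟨i, _, rfl⟩ := Finset.mem_image.1 hl
    simp at hs

omit [DecidableEq ι] in
theorem vars_clauseOf (E : ι → Fin k → V) (j : ι) (a : Fin k → Bool) :
    vars (clauseOf E j a) ⊆ edge E j := by
  intro v hv
  obtain ⟨l, hl, rfl⟩ := Finset.mem_image.1 hv
  obtain ⟨i, _, rfl⟩ := Finset.mem_image.1 hl
  exact mem_edge E j i

omit [DecidableEq ι] in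
theorem clauseOf_card (E : ι → Fin k → V) (j : ι) (a : Fin k → Bool) :
    (clauseOf E j a).card ≤ k := by
  unfold clauseOf
  exact Finset.card_image_le.trans (by simp)

omit [DecidableEq ι] in
theorem cnf_unsat [Fintype ι] (E : ι → Fin k → V) (β : ι → ZMod 2)
    (h : ∀ x : V → Bool, ∃ j, ¬ EqAt E β j x) : Unsat (cnf E β) := by
  classical
  intro x
  obtain ⟨j, hj⟩ := h x
  rw [eqAt_iff] at hj
  push Not at hj
  obtain ⟨a, ha, hs⟩ := hj
  refine ⟨clauseOf E j a, ?_, hs⟩
  unfold cnf
  refine Finset.mem_image.2 ⟨(j, a), ?_, rfl⟩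
  simp only [Finset.mem_filter, Finset.mem_univ, true_and]
  exact ⟨ha, fun ht => hs (sat_of_taut ht x)⟩

omit [DecidableEq ι] in
theorem mem_cnf [Fintype ι] {E : ι → Fin k → V} {β : ι → ZMod 2} {C : Clause V}
    (h : C ∈ cnf E β) : ∃ j a, C = clauseOf E j a ∧ bpar a ≠ β j ∧ ¬ Taut C := by
  classical
  unfold cnf at h
  obtain ⟨⟨j, a⟩, hp, rfl⟩ := Finset.mem_image.1 h
  simp only [Finset.mem_filter, Finset.mem_univ, true_and] at hp
  exact ⟨j, a, rfl, hp.1, hp.2⟩

omit [DecidableEq ι] in
theorem cnf_card [Fintype ι] (E : ι → Fin k → V) (β : ι → ZMod 2) :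
    (cnf E β).card ≤ Fintype.card ι * 2 ^ k := by
  classical
  unfold cnf
  refine Finset.card_image_le.trans ((Finset.card_filter_le _ _).trans ?_)
  simp

omit [DecidableEq V] [DecidableEq ι] in
theorem par_inj (E : ι → Fin k → V) (j : ι) (i₀ : Fin k) {x y : V → Bool}
    (h : par E j x = par E j y) (ho : ∀ i, i ≠ i₀ → x (E j i) = y (E j i)) :
    x (E j i₀) = y (E j i₀) := by
  classical
  unfold par at h
  rw [← Finset.add_sum_erase _ _ (Finset.mem_univ i₀),
    ← Finset.add_sum_erase (a := i₀) univ _ (Finset.mem_univ i₀)] at h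
  have hs : ∑ i ∈ univ.erase i₀, (if x (E j i) then (1 : ZMod 2) else 0) =
      ∑ i ∈ univ.erase i₀, (if y (E j i) then (1 : ZMod 2) else 0) := by
    refine Finset.sum_congr rfl fun i hi => ?_
    rw [ho i (Finset.ne_of_mem_erase hi)]
  rw [hs] at h
  have h' := add_right_cancel h
  cases hx : x (E j i₀) <;> cases hy : y (E j i₀) <;> simp [hx, hy] at h' ⊢

omit [DecidableEq ι] in
theorem supp_eqAt {E : ι → Fin k → V} {β : ι → ZMod 2} (ω : Subst V) (j : ι) :
    Supp ((edge E j).image (tgt ω)) fun x => EqAt E β j (sub ω x) := by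
  intro x x' hx h
  unfold EqAt par at h ⊢
  rw [← h]
  refine Finset.sum_congr rfl fun i _ => ?_
  rw [sub_congr (hx _ (Finset.mem_image_of_mem _ (mem_edge E j i)))]

omit [DecidableEq ι] in
theorem supp_eqAt' {E : ι → Fin k → V} {β : ι → ZMod 2} (j : ι) :
    Supp (edge E j) fun x => EqAt E β j x := by
  intro x x' hx h
  unfold EqAt par at h ⊢
  rw [← h]
  refine Finset.sum_congr rfl fun i _ => ?_
  rw [hx _ (mem_edge E j i)]

end Parity

section Step

variable {V ι : Type*} [Fintype V] [DecidableEq V] [Fintype ι] [DecidableEq ι] {k : ℕ}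
variable {E : ι → Fin k → V} {β : ι → ZMod 2} {ρ : V → Option Bool} {s w θ D : ℕ}

/-- The support used for statements about the edge `j`. -/
def yset (E : ι → Fin k → V) (ω : Subst V) (C : Clause V) (j : ι) : Finset V :=
  vars C ∪ (edge E j ∪ (edge E j).image (tgt ω))

omit [Fintype V] [Fintype ι] [DecidableEq ι] in
theorem yset_card (ω : Subst V) (C : Clause V) (hC : (vars C).card ≤ w) (j : ι) :
    (yset E ω C j).card ≤ w + 2 * k := by
  unfold yset
  have h1 := Finset.card_union_le (vars C) (edge E j ∪ (edge E j).image (tgt ω))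
  have h2 := Finset.card_union_le (edge E j) ((edge E j).image (tgt ω))
  have h3 := edge_card E j
  have h4 : ((edge E j).image (tgt ω)).card ≤ (edge E j).card := Finset.card_image_le
  omega

/-- After a substitution redundancy step, the substituted constraints are local consequences of
the negation of the learned clause. -/
theorem sr_step1 (hE : Expand E ρ s) (hs : 4 * w + 4 * k ≤ s) (hw1 : 1 ≤ w)
    {Γ : CNF V} (hΓ : ∀ C ∈ Γ, Good E β ρ s w C) (hFΓ : cnf E β ⊆ Γ)
    {C : Clause V} (hC : (vars C).card ≤ w) {ω : Subst V}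
    (hω : ∀ D ∈ Γ, SSat ω D ∨ Conflict Γ (negs C ∪ negs (simage ω D))) (j : ι) :
    Loc E β ρ s fun x => ¬ Sat x C → EqAt E β j (sub ω x) := by
  classical
  have hYc : 2 * (yset E ω C j).card ≤ s := by
    have := yset_card (E := E) ω C hC j
    omega
  have hA : Supp (yset E ω C j) fun x => ¬ Sat x C :=
    (((supp_sat C).mono Finset.subset_union_left)).not
  have h1 : Loc E β ρ s fun x => ∀ a ∈ univ.filter (fun a : Fin k → Bool => bpar a ≠ β j),
      ¬ Sat x C → Sat (sub ω x) (clauseOf E j a) := by
    refine Loc.all hE hYc _ (fun a x => ¬ Sat x C → Sat (sub ω x) (clauseOf E j a)) ?_ ?_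
    · intro a _
      refine hA.imp ?_
      rintro x x' hx ⟨l, hl, hh⟩
      refine ⟨l, hl, ?_⟩
      have hlv : tgt ω l.1 ∈ yset E ω C j :=
        Finset.mem_union_right _ (Finset.mem_union_right _
          (Finset.mem_image_of_mem _ (vars_clauseOf E j a (mem_vars hl))))
      rw [← hh]
      exact (sub_congr (hx _ hlv)).symm
    · intro a ha
      simp only [Finset.mem_filter, Finset.mem_univ, true_and] at ha
      by_cases ht : Taut (clauseOf E j a)
      · exact Loc.triv fun x _ _ => sat_of_taut ht _
      · have hD : clauseOf E j a ∈ cnf E β := by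
          unfold cnf
          refine Finset.mem_image.2 ⟨(j, a), ?_, rfl⟩
          simp only [Finset.mem_filter, Finset.mem_univ, true_and]
          exact ⟨ha, ht⟩
        rcases hω _ (hFΓ hD) with hl | hc
        · exact Loc.triv fun x _ _ => sat_of_ssat hl x
        · have hU : (vars (negs C ∪ negs (simage ω (clauseOf E j a)))).card + w ≤
              2 * w + 2 * k := by
            have e1 : vars (negs C ∪ negs (simage ω (clauseOf E j a))) ⊆ yset E ω C j := by
              intro v hv
              unfold vars at hv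
              rw [Finset.image_union, Finset.mem_union] at hv
              rcases hv with hv | hv
              · change v ∈ vars (negs C) at hv
                rw [vars_negs] at hv
                exact Finset.mem_union_left _ hv
              · change v ∈ vars (negs (simage ω (clauseOf E j a))) at hv
                rw [vars_negs] at hv
                obtain ⟨u, hu, rfl⟩ := Finset.mem_image.1 hv
                obtain ⟨l, hl, hlu⟩ := mem_simage.1 hu
                refine Finset.mem_union_right _ (Finset.mem_union_right _ ?_)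
                rw [app_inr_tgt hlu]
                exact Finset.mem_image_of_mem _ (vars_clauseOf E j a (mem_vars hl))
            have e2 := Finset.card_le_card e1
            have e3 := yset_card (E := E) ω C hC j
            omega
          refine (conflict_loc hE (by omega) hΓ hU hw1 hc).mono ?_
          intro x _ hx hsC
          by_contra hsD
          apply hx
          intro l hl
          rcases Finset.mem_union.1 hl with hl | hl
          · obtain ⟨l₀, hl₀, rfl⟩ := Finset.mem_image.1 hl
            exact bool_ne_not fun he => hsC ⟨l₀, hl₀, he⟩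
          · obtain ⟨u, hu, rfl⟩ := Finset.mem_image.1 hl
            obtain ⟨l₀, hl₀, hlu⟩ := mem_simage.1 hu
            exact bool_ne_not fun he => hsD ⟨l₀, hl₀, (app_inr hlu x).2 he⟩
  refine h1.mono ?_
  intro x _ hx hsC
  rw [eqAt_iff]
  intro a ha
  exact hx a (by simp [ha]) hsC

/-- The variables moved by the substitution are none or almost all. -/
theorem sr_moved (hE : Expand E ρ s) (hs : 4 * w + 4 * k ≤ s) (hk1 : 1 ≤ k)
    {C : Clause V} (hC : (vars C).card ≤ w) {ω : Subst V}
    (hstep : ∀ j, Loc E β ρ s fun x => ¬ Sat x C → EqAt E β j (sub ω x))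
    {T : Finset V} (hT : ∀ v, v ∈ T ↔ ¬ Loc E β ρ s fun x => ¬ Sat x C → sub ω x v = x v)
    (j : ι) : (univ.filter fun i => E j i ∈ T).card ≠ 1 := by
  classical
  intro hj
  have hYc : 2 * (yset E ω C j).card ≤ s := by
    have := yset_card (E := E) ω C hC j
    omega
  have hA : Supp (yset E ω C j) fun x => ¬ Sat x C :=
    (((supp_sat C).mono Finset.subset_union_left)).not
  obtain ⟨i₀, hi₀⟩ := Finset.card_eq_one.1 hj
  have hmem : E j i₀ ∈ T := by
    have : i₀ ∈ univ.filter fun i => E j i ∈ T := by rw [hi₀]; simp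
    simpa using this
  have hother : ∀ i, i ≠ i₀ → E j i ∉ T := by
    intro i hi hiT
    have : i ∈ univ.filter fun i => E j i ∈ T := by simpa using hiT
    rw [hi₀, Finset.mem_singleton] at this
    exact hi this
  have hfs : ∀ i, Supp (yset E ω C j) fun x => sub ω x (E j i) = x (E j i) := by
    intro i x x' hx hh
    have h1 : tgt ω (E j i) ∈ yset E ω C j :=
      Finset.mem_union_right _ (Finset.mem_union_right _
        (Finset.mem_image_of_mem _ (mem_edge E j i)))
    have h2 : E j i ∈ yset E ω C j :=
      Finset.mem_union_right _ (Finset.mem_union_left _ (mem_edge E j i))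
    rw [← sub_congr (hx _ h1), ← hx _ h2]
    exact hh
  have h1 : Loc E β ρ s fun x => ∀ i ∈ univ.erase i₀, ¬ Sat x C → sub ω x (E j i) = x (E j i) := by
    refine Loc.all hE hYc (univ.erase i₀) (fun i x => ¬ Sat x C → sub ω x (E j i) = x (E j i))
      (fun i _ => hA.imp (hfs i)) ?_
    intro i hi
    have := hother i (Finset.ne_of_mem_erase hi)
    rw [hT, not_not] at this
    exact this
  have hs1 : Supp (yset E ω C j) fun x => ∀ i ∈ univ.erase i₀, ¬ Sat x C →
      sub ω x (E j i) = x (E j i) := by
    intro x x' hx hh i hi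
    exact (hA.imp (hfs i)) x x' hx (hh i hi)
  have h2 : Loc E β ρ s fun x => EqAt E β j x := by
    refine ⟨{j}, ?_, fun x _ hx => hx j (Finset.mem_singleton_self j)⟩
    rw [Finset.card_singleton]
    omega
  have hs2 : Supp (yset E ω C j) fun x => EqAt E β j x :=
    (supp_eqAt' j).mono (Finset.subset_union_left.trans Finset.subset_union_right)
  have hs3 : Supp (yset E ω C j) fun x => ¬ Sat x C → EqAt E β j (sub ω x) :=
    hA.imp ((supp_eqAt ω j).mono (Finset.subset_union_right.trans Finset.subset_union_right))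
  have h3 := h2.and hE hYc hs2 hs3 (hstep j)
  have h4 := h3.and hE hYc (hs2.and hs3) hs1 h1
  rw [hT] at hmem
  apply hmem
  refine h4.mono ?_
  intro x _ hx hsC
  refine par_inj E j i₀ (x := sub ω x) (y := x) ?_ ?_
  · have a1 := hx.1.1
    have a2 := hx.1.2 hsC
    unfold EqAt at a1 a2
    rw [a1, a2]
  · intro i hi
    exact hx.2 i (Finset.mem_erase.2 ⟨hi, Finset.mem_univ _⟩) hsC

/-- If the substitution moves nothing, then the clause is a local consequence. -/
theorem sr_fixed (hE : Expand E ρ s) (hs : 4 * w + 4 * k ≤ s)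
    {C : Clause V} (hC : (vars C).card ≤ w) {ω : Subst V} (hωC : SSat ω C)
    (hT : ∀ v, Loc E β ρ s fun x => ¬ Sat x C → sub ω x v = x v) :
    Loc E β ρ s fun x => Sat x C := by
  classical
  have hc : 2 * (vars C ∪ (vars C).image (tgt ω)).card ≤ s := by
    have h1 := Finset.card_union_le (vars C) ((vars C).image (tgt ω))
    have h2 : ((vars C).image (tgt ω)).card ≤ (vars C).card := Finset.card_image_le
    omega
  have h1 : Loc E β ρ s fun x => ∀ v ∈ vars C, ¬ Sat x C → sub ω x v = x v := by
    refine Loc.all hE hc (vars C) (fun v x => ¬ Sat x C → sub ω x v = x v) ?_ fun v _ => hT v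
    intro v hv
    refine (((supp_sat C).mono Finset.subset_union_left).not).imp ?_
    intro x x' hx hh
    rw [← sub_congr (hx _ (Finset.mem_union_right _ (Finset.mem_image_of_mem _ hv))),
      ← hx _ (Finset.mem_union_left _ hv)]
    exact hh
  refine h1.mono ?_
  intro x _ hx
  by_contra hsC
  obtain ⟨l, hl, hs⟩ := sat_of_ssat hωC x
  exact hsC ⟨l, hl, by rw [← hx l.1 (mem_vars hl) hsC]; exact hs⟩

end Step

end Pool.Agent.SR
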