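import Mathlib
import Pool.Agent.Lib_helper80.SR.Deriv
import Pool.Agent.Lib_helper80.SR.Fr

/-!
# Elementary probabilities for a random edge
-/

namespace Pool.Agent.SR

open Finset

section Count

variable {V : Type*} [Fintype V] [DecidableEq V] [Nonempty V] {k : ℕ}

theorem card_pos' : (0 : ℝ) < Fintype.card V := by exact_mod_cast Fintype.card_pos

omit [Nonempty V] in
theorem fr_single (a : V) : fr (fun v : V => v = a) ≤ 1 / (Fintype.card V : ℝ) := by
  have h := fr_mem ({a} : Finset V)
  rw [Finset.card_singleton] at h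
  refine le_trans (fr_mono fun v hv => ?_) (le_of_eq (by rw [h]; norm_num))
  exact Finset.mem_singleton.2 hv

omit [Nonempty V] in
theorem fr_coll {i i' : Fin k} (h : i ≠ i') (φ : V → V) :
    fr (fun x : Fin k → V => x i = φ (x i')) ≤ 1 / (Fintype.card V : ℝ) := by
  classical
  rcases isEmpty_or_nonempty V with hV | hV
  · have : fr (fun x : Fin k → V => x i = φ (x i')) ≤ fr (fun _ : Fin k → V => False) :=
      fr_mono fun x _ => hV.elim (x i)
    refine this.trans ?_
    rw [fr_eq]
    simp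
  have hn : (0 : ℝ) < Fintype.card V := card_pos'
  have h1 : fr (fun x : Fin k → V => x i = φ (x i')) ≤
      fr (fun x : Fin k → V => ∃ a ∈ (univ : Finset V),
        ∀ l, (l = i' → x l = a) ∧ (l = i → x l = φ a)) := by
    refine fr_mono fun x hx => ⟨x i', Finset.mem_univ _, fun l => ⟨?_, ?_⟩⟩
    · rintro rfl; rfl
    · rintro rfl; exact hx
  refine h1.trans ((fr_exists_le _ _).trans ?_)
  have h2 : ∀ a ∈ (univ : Finset V),
      fr (fun x : Fin k → V => ∀ l, (l = i' → x l = a) ∧ (l = i → x l = φ a)) ≤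
        (1 / (Fintype.card V : ℝ)) * (1 / (Fintype.card V : ℝ)) := by
    intro a _
    rw [fr_pi (fun l (v : V) => (l = i' → v = a) ∧ (l = i → v = φ a))]
    have h3 : ∀ l, fr (fun v : V => (l = i' → v = a) ∧ (l = i → v = φ a)) ≤
        (if l = i' then 1 / (Fintype.card V : ℝ) else 1) *
          (if l = i then 1 / (Fintype.card V : ℝ) else 1) := by
      intro l
      split_ifs with h4 h5 h5
      · exact absurd (h5.symm.trans h4) h
      · rw [mul_one]
        exact le_trans (fr_mono fun v hv => hv.1 h4) (fr_single a)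
      · rw [one_mul]
        exact le_trans (fr_mono fun v hv => hv.2 h5) (fr_single (φ a))
      · rw [one_mul]
        exact fr_le_one _
    refine (Finset.prod_le_prod (fun l _ => fr_nonneg _) (fun l _ => h3 l)).trans (le_of_eq ?_)
    rw [Finset.prod_mul_distrib, Finset.prod_ite_eq', Finset.prod_ite_eq']
    simp
  refine (Finset.sum_le_sum h2).trans (le_of_eq ?_)
  rw [Finset.sum_const, Finset.card_univ, nsmul_eq_mul]
  field_simp

omit [Nonempty V] in
theorem fr_coll_T [Nonempty V] {i₀ i i' : Fin k} (h : i ≠ i') (h1 : i₀ ≠ i) (h2 : i₀ ≠ i')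
    (T : Finset V) :
    fr (fun x : Fin k → V => x i₀ ∈ T ∧ x i = x i') ≤
      (T.card : ℝ) / Fintype.card V * (1 / (Fintype.card V : ℝ)) := by
  classical
  have hn : (0 : ℝ) < Fintype.card V := card_pos'
  have h1 : fr (fun x : Fin k → V => x i₀ ∈ T ∧ x i = x i') ≤
      fr (fun x : Fin k → V => ∃ a ∈ (univ : Finset V),
        ∀ l, (l = i₀ → x l ∈ T) ∧ (l = i' → x l = a) ∧ (l = i → x l = a)) := by
    refine fr_mono fun x hx => ⟨x i', Finset.mem_univ _, fun l => ⟨?_, ?_, ?_⟩⟩
    · rintro rfl; exact hx.1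
    · rintro rfl; rfl
    · rintro rfl; exact hx.2
  refine h1.trans ((fr_exists_le _ _).trans ?_)
  have h2 : ∀ a ∈ (univ : Finset V),
      fr (fun x : Fin k → V => ∀ l, (l = i₀ → x l ∈ T) ∧ (l = i' → x l = a) ∧
        (l = i → x l = a)) ≤
        (T.card : ℝ) / Fintype.card V *
          ((1 / (Fintype.card V : ℝ)) * (1 / (Fintype.card V : ℝ))) := by
    intro a _
    rw [fr_pi (fun l (v : V) => (l = i₀ → v ∈ T) ∧ (l = i' → v = a) ∧ (l = i → v = a))]
    have h3 : ∀ l, fr (fun v : V => (l = i₀ → v ∈ T) ∧ (l = i' → v = a) ∧ (l = i → v = a)) ≤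
        (if l = i₀ then (T.card : ℝ) / Fintype.card V else 1) *
        ((if l = i' then 1 / (Fintype.card V : ℝ) else 1) *
          (if l = i then 1 / (Fintype.card V : ℝ) else 1)) := by
      intro l
      split_ifs with h3 h4 h5 h5 h4 h5 h5
      · exact absurd (h5.symm.trans h4) h
      · exact absurd (h3.symm.trans h4) (by assumption)
      · exact absurd (h3.symm.trans h5) (by assumption)
      · rw [mul_one, mul_one, ← fr_mem]
        exact fr_mono fun v hv => hv.1 h3
      · exact absurd (h5.symm.trans h4) h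
      · rw [mul_one, one_mul]
        exact le_trans (fr_mono fun v hv => hv.2.1 h4) (fr_single a)
      · rw [one_mul, one_mul]
        exact le_trans (fr_mono fun v hv => hv.2.2 h5) (fr_single a)
      · rw [one_mul, one_mul]
        exact fr_le_one _
    refine (Finset.prod_le_prod (fun l _ => fr_nonneg _) (fun l _ => h3 l)).trans (le_of_eq ?_)
    rw [Finset.prod_mul_distrib, Finset.prod_mul_distrib, Finset.prod_ite_eq',
      Finset.prod_ite_eq', Finset.prod_ite_eq']
    simp
  refine (Finset.sum_le_sum h2).trans (le_of_eq ?_)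
  rw [Finset.sum_const, Finset.card_univ, nsmul_eq_mul]
  field_simp

omit [Nonempty V] in
theorem fr_self (π : V → V) :
    fr (fun x : Fin k → V => ∃ i i', i ≠ i' ∧ x i = π (x i')) ≤
      (k : ℝ) ^ 2 / Fintype.card V := by
  classical
  have h1 : fr (fun x : Fin k → V => ∃ i i', i ≠ i' ∧ x i = π (x i')) ≤
      fr (fun x : Fin k → V => ∃ p ∈ (univ : Finset (Fin k × Fin k)).filter fun p => p.1 ≠ p.2,
        x p.1 = π (x p.2)) := by
    refine fr_mono fun x hx => ?_
    obtain ⟨i, i', h, hx⟩ := hx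
    exact ⟨(i, i'), by simp [h], hx⟩
  refine h1.trans ((fr_exists_le _ _).trans ?_)
  refine (Finset.sum_le_card_nsmul _ _ (1 / (Fintype.card V : ℝ)) ?_).trans ?_
  · intro p hp
    exact fr_coll (Finset.mem_filter.1 hp).2 π
  · rw [nsmul_eq_mul]
    have h2 : ((univ : Finset (Fin k × Fin k)).filter fun p => p.1 ≠ p.2).card ≤ k ^ 2 := by
      refine (Finset.card_filter_le _ _).trans ?_
      rw [Finset.card_univ, Fintype.card_prod, Fintype.card_fin, sq]
    have h3 : (((univ : Finset (Fin k × Fin k)).filter fun p => p.1 ≠ p.2).card : ℝ) ≤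
        (k : ℝ) ^ 2 := by exact_mod_cast h2
    calc _ ≤ (k : ℝ) ^ 2 * (1 / (Fintype.card V : ℝ)) :=
          mul_le_mul_of_nonneg_right h3 (by positivity)
      _ = _ := by ring

omit [Nonempty V] in
theorem fr_not_inj : fr (fun x : Fin k → V => ¬ Function.Injective x) ≤
      (k : ℝ) ^ 2 / Fintype.card V := by
  refine le_trans (fr_mono fun x hx => ?_) (fr_self id)
  unfold Function.Injective at hx
  push Not at hx
  obtain ⟨i, i', h1, h2⟩ := hx
  exact ⟨i, i', h2, h1⟩

/-- A random edge is injective and meets `T` exactly once with substantial probability. -/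
theorem fr_uniq_ge {D : ℕ} (hD : 1 ≤ D) (T : Finset V)
    (hT : D * T.card ≤ (D - 1) * Fintype.card V) :
    (T.card : ℝ) / Fintype.card V *
        ((1 / D : ℝ) ^ k - ((k + 1 : ℕ) : ℝ) ^ 2 / Fintype.card V) ≤
      fr fun x : Fin (k + 1) → V => Function.Injective x ∧
        (univ.filter fun i => x i ∈ T).card = 1 := by
  classical
  have hn : (0 : ℝ) < Fintype.card V := card_pos'
  have hD0 : (0 : ℝ) < D := by exact_mod_cast hD
  have h1 : fr (fun x : Fin (k + 1) → V => ∀ i, if i = 0 then x i ∈ T else ¬ x i ∈ T) ≤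
      fr (fun x : Fin (k + 1) → V => Function.Injective x ∧
        (univ.filter fun i => x i ∈ T).card = 1) +
      fr (fun x : Fin (k + 1) → V => ∃ p ∈ (univ : Finset (Fin (k + 1) × Fin (k + 1))).filter
        (fun p => p.1 ≠ p.2 ∧ 0 ≠ p.1 ∧ 0 ≠ p.2), x 0 ∈ T ∧ x p.1 = x p.2) := by
    refine le_trans (fr_mono fun x hx => ?_) (fr_or_le _ _)
    have hx0 : x 0 ∈ T := by
      have := hx 0
      rwa [if_pos rfl] at this
    have hxi : ∀ i, i ≠ 0 → x i ∉ T := by
      intro i hi
      have := hx i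
      rwa [if_neg hi] at this
    by_cases hinj : Function.Injective x
    · left
      refine ⟨hinj, Finset.card_eq_one.2 ⟨0, ?_⟩⟩
      ext i
      simp only [Finset.mem_filter, Finset.mem_univ, true_and, Finset.mem_singleton]
      constructor
      · intro hi
        by_contra h0
        exact hxi i h0 hi
      · rintro rfl
        exact hx0
    · right
      unfold Function.Injective at hinj
      push Not at hinj
      obtain ⟨i, i', h1, h2⟩ := hinj
      refine ⟨(i, i'), ?_, hx0, h1⟩
      simp only [Finset.mem_filter, Finset.mem_univ, true_and]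
      refine ⟨h2, ?_, ?_⟩
      · rintro rfl
        exact hxi i' (Ne.symm h2) (h1 ▸ hx0)
      · rintro rfl
        exact hxi i h2 (h1.symm ▸ hx0)
  rw [fr_pi (fun i v => if i = 0 then v ∈ T else ¬ v ∈ T), Fin.prod_univ_succ] at h1
  have h2 : fr (fun v : V => if (0 : Fin (k + 1)) = 0 then v ∈ T else ¬ v ∈ T) =
      (T.card : ℝ) / Fintype.card V := by
    rw [← fr_mem]
    exact fr_congr fun v => by rw [if_pos rfl]
  have h3 : ∀ i : Fin k, fr (fun v : V => if (Fin.succ i) = 0 then v ∈ T else ¬ v ∈ T) =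
      1 - (T.card : ℝ) / Fintype.card V := by
    intro i
    rw [← fr_mem, ← fr_not]
    exact fr_congr fun v => by rw [if_neg (Fin.succ_ne_zero i)]
  rw [h2] at h1
  simp_rw [h3] at h1
  rw [Finset.prod_const, Finset.card_univ, Fintype.card_fin] at h1
  have h4 : (1 / D : ℝ) ≤ 1 - (T.card : ℝ) / Fintype.card V := by
    have h5 : (D : ℝ) * T.card ≤ (D - 1) * Fintype.card V := by
      have h6 : ((D * T.card : ℕ) : ℝ) ≤ (((D - 1) * Fintype.card V : ℕ) : ℝ) := by
        exact_mod_cast hT
      push_cast [Nat.cast_sub hD] at h6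
      exact h6
    have h7 : (T.card : ℝ) / Fintype.card V ≤ (D - 1) / D := by
      rw [div_le_div_iff₀ hn hD0]
      linarith
    have h8 : ((D : ℝ) - 1) / D = 1 - 1 / D := by
      field_simp
    linarith
  have h5 : (1 / D : ℝ) ^ k ≤ (1 - (T.card : ℝ) / Fintype.card V) ^ k :=
    pow_le_pow_left₀ (by positivity) h4 k
  have h6 : fr (fun x : Fin (k + 1) → V =>
      ∃ p ∈ (univ : Finset (Fin (k + 1) × Fin (k + 1))).filter
        (fun p => p.1 ≠ p.2 ∧ 0 ≠ p.1 ∧ 0 ≠ p.2), x 0 ∈ T ∧ x p.1 = x p.2) ≤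
      (T.card : ℝ) / Fintype.card V * (((k + 1 : ℕ) : ℝ) ^ 2 / Fintype.card V) := by
    refine (fr_exists_le _ _).trans ?_
    refine (Finset.sum_le_card_nsmul _ _
      ((T.card : ℝ) / Fintype.card V * (1 / (Fintype.card V : ℝ))) ?_).trans ?_
    · intro p hp
      obtain ⟨a, b, c⟩ := (Finset.mem_filter.1 hp).2
      exact fr_coll_T a b c T
    · rw [nsmul_eq_mul]
      have h2 : ((univ : Finset (Fin (k + 1) × Fin (k + 1))).filter
        (fun p => p.1 ≠ p.2 ∧ 0 ≠ p.1 ∧ 0 ≠ p.2)).card ≤ (k + 1) ^ 2 := by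
        refine (Finset.card_filter_le _ _).trans ?_
        rw [Finset.card_univ, Fintype.card_prod, Fintype.card_fin, sq]
      have h3 : (((univ : Finset (Fin (k + 1) × Fin (k + 1))).filter
        (fun p => p.1 ≠ p.2 ∧ 0 ≠ p.1 ∧ 0 ≠ p.2)).card : ℝ) ≤ ((k + 1 : ℕ) : ℝ) ^ 2 := by
        exact_mod_cast h2
      calc _ ≤ ((k + 1 : ℕ) : ℝ) ^ 2 *
            ((T.card : ℝ) / Fintype.card V * (1 / (Fintype.card V : ℝ))) :=
            mul_le_mul_of_nonneg_right h3 (by positivity)
        _ = _ := by ring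
  have h7 : (0 : ℝ) ≤ (T.card : ℝ) / Fintype.card V := by positivity
  nlinarith [mul_le_mul_of_nonneg_left h5 h7]

theorem fr_inside_ge {D : ℕ} (hD : 1 ≤ D) (S : Finset V)
    (hS : Fintype.card V < D * S.card) :
    (1 / D : ℝ) ^ k - (k : ℝ) ^ 2 / Fintype.card V ≤
      fr fun x : Fin k → V => Function.Injective x ∧ ∀ i, x i ∈ S := by
  classical
  have hn : (0 : ℝ) < Fintype.card V := card_pos'
  have hD0 : (0 : ℝ) < D := by exact_mod_cast hD
  have h1 : fr (fun x : Fin k → V => ∀ i, x i ∈ S) ≤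
      fr (fun x : Fin k → V => Function.Injective x ∧ ∀ i, x i ∈ S) +
      fr (fun x : Fin k → V => ¬ Function.Injective x) := by
    refine le_trans (fr_mono fun x hx => ?_) (fr_or_le _ _)
    by_cases hinj : Function.Injective x
    · exact Or.inl ⟨hinj, hx⟩
    · exact Or.inr hinj
  rw [fr_pi (fun _ v => v ∈ S), Finset.prod_const, Finset.card_univ, Fintype.card_fin, fr_mem]
    at h1
  have h2 : (1 / D : ℝ) ≤ (S.card : ℝ) / Fintype.card V := by
    rw [div_le_div_iff₀ hD0 hn]
    have : (Fintype.card V : ℝ) < (D * S.card : ℕ) := by exact_mod_cast hS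
    push_cast at this
    linarith
  have h3 : (1 / D : ℝ) ^ k ≤ ((S.card : ℝ) / Fintype.card V) ^ k :=
    pow_le_pow_left₀ (by positivity) h2 k
  have h4 := fr_not_inj (V := V) (k := k)
  linarith

end Count

end Pool.Agent.SR
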