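import Mathlib
import Pool.Agent.Lib_helper80.SR.Count

/-!
# Sequential exposure
-/

namespace Pool.Agent.SR

open Finset

section Seq

variable {X : Type*} [Fintype X]

/-- All pairs of different entries are compatible. -/
def Compat (compat : X → X → Prop) {m : ℕ} (E : Fin m → X) : Prop :=
  ∀ j j', j ≠ j' → compat (E j) (E j')

open Classical in
/-- The number of entries which are excused or related to a later entry. -/
noncomputable def cnt (ex : X → Prop) (rel : X → X → Prop) {m : ℕ} (E : Fin m → X) : ℕ :=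
  (univ.filter fun j => ex (E j) ∨ ∃ j', j < j' ∧ rel (E j) (E j')).card

theorem cnt_cons (ex : X → Prop) (rel : X → X → Prop) {m : ℕ} (x : X) (E : Fin m → X)
    [Decidable (ex x ∨ ∃ j, rel x (E j))] :
    cnt ex rel (Fin.cons x E : Fin (m + 1) → X) =
      (if ex x ∨ ∃ j, rel x (E j) then 1 else 0) + cnt ex rel E := by
  classical
  unfold cnt
  rw [Finset.card_filter, Finset.card_filter, Fin.sum_univ_succ]
  congr 1
  · have h1 : (ex ((Fin.cons x E : Fin (m + 1) → X) 0) ∨
        ∃ j', 0 < j' ∧ rel ((Fin.cons x E : Fin (m + 1) → X) 0)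
          ((Fin.cons x E : Fin (m + 1) → X) j')) ↔ (ex x ∨ ∃ j, rel x (E j)) := by
      rw [Fin.cons_zero]
      refine or_congr_right ?_
      constructor
      · rintro ⟨j', h0, h⟩
        obtain ⟨j, rfl⟩ := Fin.exists_succ_eq.2 (ne_of_gt h0)
        rw [Fin.cons_succ] at h
        exact ⟨j, h⟩
      · rintro ⟨j, h⟩
        exact ⟨j.succ, Fin.succ_pos j, by rw [Fin.cons_succ]; exact h⟩
    by_cases h2 : ex x ∨ ∃ j, rel x (E j)
    · rw [if_pos h2, if_pos (h1.2 h2)]
    · rw [if_neg h2, if_neg (fun h => h2 (h1.1 h))]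
  · refine Finset.sum_congr rfl fun j _ => ?_
    have h1 : (ex ((Fin.cons x E : Fin (m + 1) → X) j.succ) ∨
        ∃ j', j.succ < j' ∧ rel ((Fin.cons x E : Fin (m + 1) → X) j.succ)
          ((Fin.cons x E : Fin (m + 1) → X) j')) ↔
        (ex (E j) ∨ ∃ j', j < j' ∧ rel (E j) (E j')) := by
      rw [Fin.cons_succ]
      refine or_congr_right ?_
      constructor
      · rintro ⟨j', h0, h⟩
        obtain ⟨j'', rfl⟩ := Fin.exists_succ_eq.2 (ne_of_gt (lt_trans (Fin.succ_pos j) h0))
        rw [Fin.cons_succ] at h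
        exact ⟨j'', Fin.succ_lt_succ_iff.1 h0, h⟩
      · rintro ⟨j', h0, h⟩
        exact ⟨j'.succ, Fin.succ_lt_succ_iff.2 h0, by rw [Fin.cons_succ]; exact h⟩
    by_cases h2 : ex (E j) ∨ ∃ j', j < j' ∧ rel (E j) (E j')
    · rw [if_pos h2, if_pos (h1.2 h2)]
    · rw [if_neg h2, if_neg (fun h => h2 (h1.1 h))]

open Classical in
theorem seq_av [Nonempty X] (compat : X → X → Prop) (ex : X → Prop) (rel : X → X → Prop)
    {p : ℝ} (hp : 0 ≤ p)
    (h : ∀ (m : ℕ) (E : Fin m → X), Compat compat E →
      fr (fun x => ex x ∨ ∃ j, rel x (E j)) ≤ p) (m : ℕ) :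
    av (fun E : Fin m → X => if Compat compat E then (2 : ℝ) ^ cnt ex rel E else 0) ≤
      (1 + p) ^ m := by
  induction m with
  | zero =>
    rw [pow_zero, ← av_one (Ω := Fin 0 → X)]
    refine av_mono fun E => ?_
    have : cnt ex rel E = 0 := by
      unfold cnt
      rw [Finset.card_eq_zero]
      exact Finset.filter_eq_empty_iff.2 fun j => j.elim0
    rw [this]
    split_ifs <;> norm_num
  | succ m ih =>
    rw [av_cons, pow_succ]
    refine le_trans (av_mono (g := fun E : Fin m → X =>
      (if Compat compat E then (2 : ℝ) ^ cnt ex rel E else 0) * (1 + p)) fun E => ?_) ?_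
    · by_cases hc : Compat compat E
      · rw [if_pos hc]
        have h1 : av (fun x : X => if Compat compat (Fin.cons x E : Fin (m + 1) → X) then
            (2 : ℝ) ^ cnt ex rel (Fin.cons x E : Fin (m + 1) → X) else 0) ≤
            av (fun x : X => (2 : ℝ) ^ cnt ex rel E *
              (1 + if ex x ∨ ∃ j, rel x (E j) then (1 : ℝ) else 0)) := by
          refine av_mono fun x => ?_
          rw [cnt_cons ex rel x E]
          split_ifs
          · rw [pow_add, pow_one]; nlinarith [pow_pos (two_pos : (0 : ℝ) < 2) (cnt ex rel E)]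
          · rw [zero_add, add_zero, mul_one]
          · positivity
          · positivity
        refine h1.trans ?_
        rw [av_const_mul, av_add, av_one, ← fr_eq_av (fun x => ex x ∨ ∃ j, rel x (E j))]
        exact mul_le_mul_of_nonneg_left (add_le_add le_rfl (h m E hc)) (by positivity)
      · rw [if_neg hc, zero_mul]
        have h1 : av (fun x : X => if Compat compat (Fin.cons x E : Fin (m + 1) → X) then
            (2 : ℝ) ^ cnt ex rel (Fin.cons x E : Fin (m + 1) → X) else 0) ≤
            av (fun _ : X => (0 : ℝ)) := by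
          refine av_mono fun x => ?_
          rw [if_neg]
          intro hc'
          apply hc
          intro j j' hjj
          have := hc' j.succ j'.succ (fun he => hjj (Fin.succ_injective _ he))
          rwa [Fin.cons_succ, Fin.cons_succ] at this
        refine h1.trans (le_of_eq ?_)
        unfold av
        simp
    · rw [av_mul_const]
      exact mul_le_mul_of_nonneg_right ih (by linarith)

theorem seq_fr [Nonempty X] (compat : X → X → Prop) (ex : X → Prop) (rel : X → X → Prop)
    {p : ℝ} (hp : 0 ≤ p)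
    (h : ∀ (m : ℕ) (E : Fin m → X), Compat compat E →
      fr (fun x => ex x ∨ ∃ j, rel x (E j)) ≤ p) (m : ℕ) :
    fr (fun E : Fin (2 * m) → X => Compat compat E ∧ m ≤ cnt ex rel E) ≤
      ((1 + p) ^ 2 / 2) ^ m := by
  classical
  have h1 := seq_av compat ex rel hp h (2 * m)
  have h2 := markov (Ω := Fin (2 * m) → X)
    (f := fun E => if Compat compat E then (2 : ℝ) ^ cnt ex rel E else 0)
    (fun E => by split_ifs <;> positivity) (c := 2 ^ m)
    (fun E => Compat compat E ∧ m ≤ cnt ex rel E) (fun E hE => by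
      rw [if_pos hE.1]
      exact pow_le_pow_right₀ (by norm_num) hE.2)
  rw [div_pow, ← pow_mul, le_div_iff₀ (by positivity)]
  exact h2.trans h1

theorem fr_equiv {Ω : Type*} [Fintype Ω] (e : Ω ≃ Ω) (p : Ω → Prop) :
    fr (fun ω => p (e ω)) = fr p := by
  classical
  rw [fr_eq, fr_eq]
  congr 2
  refine Finset.card_bij (fun ω _ => e ω) ?_ ?_ ?_
  · intro ω hω
    simpa using hω
  · intro a _ b _ h
    exact e.injective h
  · intro ω hω
    exact ⟨e.symm ω, by simpa using hω, by simp⟩

/-- Reversal of the order of exposure. -/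
def revEquiv (X : Type*) (m : ℕ) : (Fin m → X) ≃ (Fin m → X) where
  toFun E := fun j => E (Fin.rev j)
  invFun E := fun j => E (Fin.rev j)
  left_inv E := by funext j; simp
  right_inv E := by funext j; simp

theorem seq_fr_rev [Nonempty X] (compat : X → X → Prop) (ex : X → Prop) (rel : X → X → Prop)
    {p : ℝ} (hp : 0 ≤ p)
    (h : ∀ (m : ℕ) (E : Fin m → X), Compat compat E →
      fr (fun x => ex x ∨ ∃ j, rel x (E j)) ≤ p) (m : ℕ) :
    fr (fun E : Fin (2 * m) → X => Compat compat E ∧
      m ≤ cnt ex rel (revEquiv X (2 * m) E)) ≤ ((1 + p) ^ 2 / 2) ^ m := by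
  refine le_trans (le_of_eq ?_) (seq_fr compat ex rel hp h m)
  rw [← fr_equiv (revEquiv X (2 * m)) (fun E => Compat compat E ∧ m ≤ cnt ex rel E)]
  refine fr_congr fun E => and_congr_left fun _ => ?_
  constructor
  · intro hE j j' hjj
    exact hE _ _ fun he => hjj (Fin.rev_injective he)
  · intro hE j j' hjj
    have := hE (Fin.rev j) (Fin.rev j') fun he => hjj (Fin.rev_injective he)
    simpa [revEquiv] using this

/-- If every entry is excused or related to another entry, then in one of the two orders at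
least half of the entries are excused or related to a later entry. -/
theorem half_cnt (ex : X → Prop) (rel : X → X → Prop) {m : ℕ} (E : Fin (2 * m) → X)
    (h : ∀ j, ex (E j) ∨ ∃ j', j' ≠ j ∧ rel (E j) (E j')) :
    m ≤ cnt ex rel E ∨ m ≤ cnt ex rel (revEquiv X (2 * m) E) := by
  classical
  have h1 : cnt ex rel (revEquiv X (2 * m) E) =
      (univ.filter fun j => ex (E j) ∨ ∃ j', j' < j ∧ rel (E j) (E j')).card := by
    unfold cnt
    refine Finset.card_bij (fun j _ => Fin.rev j) ?_ ?_ ?_
    · intro j hj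
      simp only [Finset.mem_filter, Finset.mem_univ, true_and, revEquiv, Equiv.coe_fn_mk] at hj ⊢
      rcases hj with hj | ⟨j', h1, h2⟩
      · exact Or.inl hj
      · exact Or.inr ⟨Fin.rev j', Fin.rev_lt_rev.2 h1, h2⟩
    · intro a _ b _ hab
      exact Fin.rev_injective hab
    · intro j hj
      simp only [Finset.mem_filter, Finset.mem_univ, true_and] at hj
      refine ⟨Fin.rev j, ?_, by simp⟩
      simp only [Finset.mem_filter, Finset.mem_univ, true_and, revEquiv, Equiv.coe_fn_mk,
        Fin.rev_rev]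
      rcases hj with hj | ⟨j', h1, h2⟩
      · exact Or.inl hj
      · exact Or.inr ⟨Fin.rev j', Fin.rev_lt_rev.2 h1, by rw [Fin.rev_rev]; exact h2⟩
  have h2 : (univ : Finset (Fin (2 * m))).card ≤ cnt ex rel E +
      (univ.filter fun j => ex (E j) ∨ ∃ j', j' < j ∧ rel (E j) (E j')).card := by
    unfold cnt
    refine le_trans (Finset.card_le_card ?_) (Finset.card_union_le _ _)
    intro j _
    rcases h j with hj | ⟨j', hne, hr⟩
    · exact Finset.mem_union_left _ (Finset.mem_filter.2 ⟨Finset.mem_univ _, Or.inl hj⟩)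
    · rcases lt_or_gt_of_ne hne with hlt | hgt
      · exact Finset.mem_union_right _
          (Finset.mem_filter.2 ⟨Finset.mem_univ _, Or.inr ⟨j', hlt, hr⟩⟩)
      · exact Finset.mem_union_left _
          (Finset.mem_filter.2 ⟨Finset.mem_univ _, Or.inr ⟨j', hgt, hr⟩⟩)
  rw [Finset.card_univ, Fintype.card_fin] at h2
  rw [h1]
  omega

theorem seq_total [Nonempty X] (compat : X → X → Prop) (ex : X → Prop) (rel : X → X → Prop)
    {p : ℝ} (hp : 0 ≤ p)
    (h : ∀ (m : ℕ) (E : Fin m → X), Compat compat E →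
      fr (fun x => ex x ∨ ∃ j, rel x (E j)) ≤ p) (m : ℕ) :
    fr (fun E : Fin (2 * m) → X => Compat compat E ∧
      ∀ j, ex (E j) ∨ ∃ j', j' ≠ j ∧ rel (E j) (E j')) ≤ 2 * ((1 + p) ^ 2 / 2) ^ m := by
  have h1 := seq_fr compat ex rel hp h m
  have h2 := seq_fr_rev compat ex rel hp h m
  have h3 := (fr_or_le (fun E : Fin (2 * m) → X => Compat compat E ∧ m ≤ cnt ex rel E)
    (fun E : Fin (2 * m) → X => Compat compat E ∧
      m ≤ cnt ex rel (revEquiv X (2 * m) E))).trans (add_le_add h1 h2)
  refine le_trans (fr_mono fun E hE => ?_) (h3.trans (le_of_eq (by ring)))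
  rcases half_cnt ex rel E hE.2 with h3 | h3
  · exact Or.inl ⟨hE.1, h3⟩
  · exact Or.inr ⟨hE.1, h3⟩

end Seq

end Pool.Agent.SR
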