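import Mathlib
import Pool.Agent.Lib_helper80.SR.Seq

/-!
# Rigidity of the random hypergraph: probability estimates
-/

namespace Pool.Agent.SR

open Finset

section RigProb

variable {V : Type*} [Fintype V] [DecidableEq V]

theorem av_pi (g : V → ℝ) (n : ℕ) :
    av (fun x : Fin n → V => ∏ i, g (x i)) = av g ^ n := by
  induction n with
  | zero =>
    simp only [Finset.univ_eq_empty, Finset.prod_empty, pow_zero]
    exact av_one
  | succ n ih =>
    rw [av_cons, pow_succ, ← ih, ← av_mul_const]
    congr 1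
    funext E
    rw [← av_const_mul]
    congr 1
    funext x
    rw [Fin.prod_univ_succ, Fin.cons_zero, mul_comm]
    congr 1

/-- The set of entries of a tuple. -/
def img {k : ℕ} (x : Fin k → V) : Finset V := univ.image x

/-- The image of `x` under `π` (modulo 2) is a large trace of the edge `x'` outside `Z`. -/
def relTo {k : ℕ} (θ : ℕ) (π : V → V) (Z : Finset V) (x x' : Fin k → V) : Prop :=
  θ < (img x' \ Z).card ∧ oddOn univ (fun i => π (x i)) = img x' \ Z

/-- Two edges share at most `d` vertices. -/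
def near {k : ℕ} (d : ℕ) (x x' : Fin k → V) : Prop := (img x ∩ img x').card ≤ d

variable {k θ d : ℕ}

theorem cnt_cons_eq (π : V → V) (a : V) (y : Fin k → V) (u : V) :
    ((univ : Finset (Fin (k + 1))).filter
      fun i => π ((Fin.cons a y : Fin (k + 1) → V) i) = u).card =
      (if π a = u then 1 else 0) +
        ((univ : Finset (Fin k)).filter fun i => π (y i) = u).card := by
  rw [Finset.card_filter, Finset.card_filter, Fin.sum_univ_succ, Fin.cons_zero]
  congr 1

theorem rel_unique (hd : d + 2 ≤ θ) {m : ℕ} (f : Fin m → (Fin (k + 1) → V))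
    (hf : Compat (near d) f) (π : V → V) (Z : Finset V) (y : Fin k → V) {a a' : V}
    (h : ∃ j, relTo θ π Z (Fin.cons a y : Fin (k + 1) → V) (f j))
    (h' : ∃ j, relTo θ π Z (Fin.cons a' y : Fin (k + 1) → V) (f j)) : π a = π a' := by
  classical
  by_contra hne
  obtain ⟨j, hj1, hj2⟩ := h
  obtain ⟨j', hj1', hj2'⟩ := h'
  have hmem : ∀ (b u : V), u ∈ oddOn univ (fun i => π ((Fin.cons b y : Fin (k + 1) → V) i)) ↔
      Odd ((if π b = u then 1 else 0) +
        ((univ : Finset (Fin k)).filter fun i => π (y i) = u).card) := by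
    intro b u
    unfold oddOn
    rw [Finset.mem_filter, cnt_cons_eq]
    simp
  by_cases hjj : j = j'
  · subst hjj
    have h1 := hmem a (π a)
    have h2 := hmem a' (π a)
    rw [hj2] at h1
    rw [hj2'] at h2
    rw [if_pos rfl] at h1
    rw [if_neg (Ne.symm hne), zero_add] at h2
    have h3 := h1.symm.trans h2
    rw [add_comm, Nat.odd_add_one] at h3
    exact (not_iff_self h3)
  · have hsub : img (f j) \ Z ⊆ (img (f j) ∩ img (f j')) ∪ {π a, π a'} := by
      intro u hu
      by_cases hu1 : u = π a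
      · exact Finset.mem_union_right _ (by simp [hu1])
      · by_cases hu2 : u = π a'
        · exact Finset.mem_union_right _ (by simp [hu2])
        · refine Finset.mem_union_left _ (Finset.mem_inter.2 ⟨(Finset.mem_sdiff.1 hu).1, ?_⟩)
          have h1 := hmem a u
          have h2 := hmem a' u
          rw [if_neg (Ne.symm hu1)] at h1
          rw [if_neg (Ne.symm hu2)] at h2
          rw [← hj2, h1, ← h2, hj2'] at hu
          exact (Finset.mem_sdiff.1 hu).1
    have h1 := Finset.card_le_card hsub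
    have h2 := Finset.card_union_le (img (f j) ∩ img (f j')) {π a, π a'}
    have h3 : ({π a, π a'} : Finset V).card ≤ 2 := Finset.card_le_two
    have h4 : (img (f j) ∩ img (f j')).card ≤ d := hf j j' hjj
    omega

theorem pd_spread [Nonempty V] (hd : d + 2 ≤ θ) {m : ℕ} (f : Fin m → (Fin (k + 1) → V))
    (hf : Compat (near d) f) (π : V → V) (Z : Finset V) {μ : ℝ} (hμ0 : 0 ≤ μ)
    (hμ : ∀ a, fr (fun v => π v = a) ≤ μ) :
    fr (fun x : Fin (k + 1) → V => ∃ j, relTo θ π Z x (f j)) ≤ μ := by
  classical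
  refine fr_cons_le _ fun y => ?_
  by_cases hex : ∃ a₀ : V, ∃ j, relTo θ π Z (Fin.cons a₀ y : Fin (k + 1) → V) (f j)
  · obtain ⟨a₀, ha₀⟩ := hex
    exact le_trans (fr_mono fun a ha => rel_unique hd f hf π Z y ha ha₀) (hμ (π a₀))
  · push Not at hex
    refine le_trans (fr_mono (q := fun _ => False) fun a ha => ?_) ?_
    · obtain ⟨j, hj⟩ := ha
      exact hex a j hj
    · rw [fr_eq]
      simpa using hμ0

theorem pd_heavy [Nonempty V] (hθ : θ ≤ k) {m : ℕ} (f : Fin m → (Fin k → V))
    (π : V → V) (Z : Finset V) {μ : ℝ} (hμ1 : μ ≤ 1) (a : V)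
    (ha : μ ≤ fr (fun v => π v = a)) :
    fr (fun x : Fin k → V => ∃ j, relTo θ π Z x (f j)) ≤
      (3 / 2) ^ (k - θ) * (1 - μ / 3) ^ k := by
  classical
  have h1 := markov (Ω := Fin k → V)
    (f := fun x => ∏ i, (fun v => if π v = a then (2 / 3 : ℝ) else 1) (x i))
    (fun x => Finset.prod_nonneg fun i _ => by beta_reduce; split_ifs <;> norm_num)
    (c := (2 / 3) ^ (k - θ))
    (fun x => ∃ j, relTo θ π Z x (f j)) (by
      rintro x ⟨j, hj1, hj2⟩
      beta_reduce
      rw [Finset.prod_ite, Finset.prod_const_one, mul_one, Finset.prod_const]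
      refine pow_le_pow_of_le_one (by norm_num) (by norm_num) ?_
      rw [← hj2] at hj1
      have hsub : oddOn univ (fun i => π (x i)) ⊆
          {a} ∪ ((univ : Finset (Fin k)).filter fun i => ¬ π (x i) = a).image
            fun i => π (x i) := by
        intro u hu
        obtain ⟨i, _, rfl⟩ := mem_oddOn hu
        by_cases hi : π (x i) = a
        · exact Finset.mem_union_left _ (by simp [hi])
        · exact Finset.mem_union_right _ (Finset.mem_image.2 ⟨i, by simp [hi], rfl⟩)
      have h2 := Finset.card_le_card hsub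
      have h3 := Finset.card_union_le ({a} : Finset V)
        (((univ : Finset (Fin k)).filter fun i => ¬ π (x i) = a).image fun i => π (x i))
      have h4 : (((univ : Finset (Fin k)).filter fun i => ¬ π (x i) = a).image
        fun i => π (x i)).card ≤ ((univ : Finset (Fin k)).filter fun i => ¬ π (x i) = a).card :=
        Finset.card_image_le
      have h5 := Finset.card_filter_add_card_filter_not (s := (univ : Finset (Fin k)))
        (fun i => π (x i) = a)
      rw [Finset.card_univ, Fintype.card_fin] at h5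
      rw [Finset.card_singleton] at h3
      omega)
  rw [av_pi (fun v : V => if π v = a then (2 / 3 : ℝ) else 1)] at h1
  have h2 : av (fun v : V => if π v = a then (2 / 3 : ℝ) else 1) ≤ 1 - μ / 3 := by
    have h3 : av (fun v : V => if π v = a then (2 / 3 : ℝ) else 1) =
        1 + (-(1 / 3)) * fr (fun v => π v = a) := by
      have e1 : (fun v : V => if π v = a then (2 / 3 : ℝ) else 1) =
          fun v => (fun _ => (1 : ℝ)) v +
            (fun v => (-(1 / 3)) * if π v = a then (1 : ℝ) else 0) v := by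
        funext v
        beta_reduce
        by_cases h : π v = a
        · rw [if_pos h, if_pos h]; norm_num
        · rw [if_neg h, if_neg h]; norm_num
      rw [e1, av_add, av_one, av_const_mul, ← fr_eq_av (fun v => π v = a)]
    rw [h3]
    linarith
  have h0 : 0 ≤ av (fun v : V => if π v = a then (2 / 3 : ℝ) else 1) :=
    av_nonneg fun v => by split_ifs <;> norm_num
  have h4 : fr (fun x : Fin k → V => ∃ j, relTo θ π Z x (f j)) * (2 / 3) ^ (k - θ) ≤
      (1 - μ / 3) ^ k := h1.trans (pow_le_pow_left₀ h0 h2 k)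
  have h5 : (3 / 2 : ℝ) ^ (k - θ) * (2 / 3) ^ (k - θ) = 1 := by
    rw [← mul_pow]; norm_num
  calc fr (fun x : Fin k → V => ∃ j, relTo θ π Z x (f j)) =
      (3 / 2 : ℝ) ^ (k - θ) *
        (fr (fun x : Fin k → V => ∃ j, relTo θ π Z x (f j)) * (2 / 3) ^ (k - θ)) := by
        rw [mul_comm (fr _), ← mul_assoc, h5, one_mul]
    _ ≤ _ := mul_le_mul_of_nonneg_left h4 (by positivity)

theorem pd_le [Nonempty V] (hd : d + 2 ≤ θ) (hθ : θ ≤ k + 1) {m : ℕ}
    (f : Fin m → (Fin (k + 1) → V))
    (hf : Compat (near d) f) (π : V → V) (Z : Finset V) {μ : ℝ} (hμ0 : 0 ≤ μ) (hμ1 : μ ≤ 1)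
    (hnum : (3 / 2 : ℝ) ^ (k + 1 - θ) * (1 - μ / 3) ^ (k + 1) ≤ μ) :
    fr (fun x : Fin (k + 1) → V => ∃ j, relTo θ π Z x (f j)) ≤ μ := by
  by_cases h : ∀ a, fr (fun v => π v = a) ≤ μ
  · exact pd_spread hd f hf π Z hμ0 h
  · push Not at h
    obtain ⟨a, ha⟩ := h
    exact (pd_heavy hθ f π Z hμ1 a ha.le).trans hnum

/-- Edges which are excused for the pair `π`, `W`. -/
def excused (π : V → V) (W : Finset V) (x : Fin k → V) : Prop :=
  ¬ Function.Injective x ∨ (∃ i, x i ∉ W) ∨ ∃ i i', i ≠ i' ∧ x i = π (x i')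

theorem fr_excused [Nonempty V] {D : ℕ} (hD : 3 ≤ D) (π : V → V) (W : Finset V)
    (hW : (D - 3) * Fintype.card V < D * W.card) :
    fr (fun x : Fin k → V => excused π W x) ≤
      3 * (k : ℝ) / D + 2 * ((k : ℝ) ^ 2 / Fintype.card V) := by
  classical
  have hn : (0 : ℝ) < Fintype.card V := card_pos'
  have hD0 : (0 : ℝ) < D := by
    have : 0 < D := by omega
    exact_mod_cast this
  have h1 : fr (fun x : Fin k → V => ∃ i ∈ (univ : Finset (Fin k)), ¬ x i ∈ W) ≤
      3 * (k : ℝ) / D := by
    refine (fr_exists_le _ _).trans ?_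
    refine (Finset.sum_le_card_nsmul _ _ (3 / (D : ℝ)) ?_).trans ?_
    · intro i _
      have h2 : fr (fun x : Fin k → V => ¬ x i ∈ W) ≤
          fr (fun x : Fin k → V => ∀ l, l = i → ¬ x l ∈ W) := by
        refine fr_mono fun x hx l hl => ?_
        rw [hl]; exact hx
      refine h2.trans ?_
      rw [fr_pi (fun l (v : V) => l = i → ¬ v ∈ W)]
      have h3 : ∀ l, fr (fun v : V => l = i → ¬ v ∈ W) ≤ if l = i then 3 / (D : ℝ) else 1 := by
        intro l
        split_ifs with hl
        · refine le_trans (fr_mono fun v hv => hv hl) ?_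
          rw [fr_not, fr_mem]
          have h4 : ((D : ℝ) - 3) * Fintype.card V ≤ D * W.card := by
            have h6 : (((D - 3) * Fintype.card V : ℕ) : ℝ) ≤ ((D * W.card : ℕ) : ℝ) := by
              exact_mod_cast hW.le
            push_cast [Nat.cast_sub hD] at h6
            exact h6
          have h5 : ((D : ℝ) - 3) / D ≤ (W.card : ℝ) / Fintype.card V := by
            rw [div_le_div_iff₀ hD0 hn]
            linarith
          have h6 : ((D : ℝ) - 3) / D = 1 - 3 / D := by field_simp
          linarith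
        · exact fr_le_one _
      refine (Finset.prod_le_prod (fun l _ => fr_nonneg _) (fun l _ => h3 l)).trans
        (le_of_eq ?_)
      rw [Finset.prod_ite_eq']
      simp
    · rw [nsmul_eq_mul, Finset.card_univ, Fintype.card_fin]
      exact le_of_eq (by ring)
  have h2 := fr_not_inj (V := V) (k := k)
  have h3 := fr_self (V := V) (k := k) π
  have h4 : fr (fun x : Fin k → V => excused π W x) ≤
      fr (fun x : Fin k → V => ¬ Function.Injective x) +
        (fr (fun x : Fin k → V => ∃ i ∈ (univ : Finset (Fin k)), ¬ x i ∈ W) +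
          fr (fun x : Fin k → V => ∃ i i', i ≠ i' ∧ x i = π (x i'))) := by
    refine le_trans (fr_mono fun x hx => ?_)
      ((fr_or_le _ _).trans (add_le_add le_rfl (fr_or_le _ _)))
    rcases hx with hx | ⟨i, hx⟩ | hx
    · exact Or.inl hx
    · exact Or.inr (Or.inl ⟨i, Finset.mem_univ _, hx⟩)
    · exact Or.inr (Or.inr hx)
  linarith

/-- Failure of rigidity for one triple `π`, `W`, `Z`. -/
def RigFail (θ : ℕ) (π : V → V) (W Z : Finset V) {m : ℕ} (E : Fin m → (Fin k → V)) : Prop :=
  ∀ j, Function.Injective (E j) → (∀ i, E j i ∈ W) →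
    ∃ j', Function.Injective (E j') ∧ θ < (img (E j') \ Z).card ∧
      oddOn univ (fun i => π (E j i)) = img (E j') \ Z

theorem fr_rigFail [Nonempty V] {D : ℕ} (hD : 3 ≤ D) (hd : d + 2 ≤ θ) (hθ : θ ≤ k + 1)
    {μ p : ℝ} (hμ0 : 0 ≤ μ) (hμ1 : μ ≤ 1)
    (hnum : (3 / 2 : ℝ) ^ (k + 1 - θ) * (1 - μ / 3) ^ (k + 1) ≤ μ)
    (hp : μ + (3 * ((k + 1 : ℕ) : ℝ) / D + 2 * (((k + 1 : ℕ) : ℝ) ^ 2 / Fintype.card V)) ≤ p)
    (π : V → V) (W Z : Finset V) (hW : (D - 3) * Fintype.card V < D * W.card)
    (hπ : ∀ v ∈ W, π v ≠ v) (m : ℕ) :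
    fr (fun E : Fin (2 * m) → (Fin (k + 1) → V) => Compat (near d) E ∧ RigFail θ π W Z E) ≤
      2 * ((1 + p) ^ 2 / 2) ^ m := by
  classical
  have hp0 : 0 ≤ p := by
    refine le_trans ?_ hp
    have : (0 : ℝ) < Fintype.card V := card_pos'
    positivity
  refine le_trans (fr_mono fun E hE => ?_)
    (seq_total (near d) (excused π W) (relTo θ π Z) hp0 ?_ m)
  · refine ⟨hE.1, fun j => ?_⟩
    by_cases hex : excused π W (E j)
    · exact Or.inl hex
    · right
      have hex' := hex
      unfold excused at hex'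
      push Not at hex'
      obtain ⟨h1, h2, h3⟩ := hex'
      obtain ⟨j', h4, h5, h6⟩ := hE.2 j h1 h2
      refine ⟨j', ?_, h5, h6⟩
      rintro rfl
      obtain ⟨v, hv⟩ := Finset.card_pos.1 (lt_of_le_of_lt (Nat.zero_le _) h5)
      have hv' := hv
      rw [← h6] at hv'
      obtain ⟨i, _, hi⟩ := Finset.mem_image.1 (Finset.mem_sdiff.1 hv).1
      obtain ⟨i', _, hi'⟩ := mem_oddOn hv'
      have hne : i ≠ i' := by
        rintro rfl
        exact hπ (E j' i) (h2 i) (hi'.trans hi.symm)
      exact h3 i i' hne (hi.trans hi'.symm)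
  · intro m' f hf
    refine (fr_or_le _ _).trans (le_trans ?_ hp)
    rw [add_comm]
    exact add_le_add (pd_le hd hθ f hf π Z hμ0 hμ1 hnum) (fr_excused hD π W hW)

end RigProb

end Pool.Agent.SR
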