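import Mathlib
import Pool.Agent.Lib_helper80.SR.Rig

/-!
# Existence of the hypergraph and of the restriction, by counting
-/

namespace Pool.Agent.SR

open Finset

section Hyp

theorem sum_pow_le (N : ℕ) {y : ℝ} (hy : 0 ≤ y) {α : Type*} [Fintype α] [DecidableEq α]
    (hN : Fintype.card α = N) :
    ∑ T ∈ (univ : Finset (Finset α)).filter (fun T => T.Nonempty), y ^ T.card ≤
      Real.exp (N * y) - 1 := by
  have h1 : ∑ T ∈ (univ : Finset α).powerset, y ^ T.card * 1 ^ ((univ : Finset α).card - T.card) =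
      (y + 1) ^ (univ : Finset α).card := Finset.sum_pow_mul_eq_add_pow y 1 univ
  have h2 : ∑ T : Finset α, y ^ T.card = (y + 1) ^ N := by
    rw [← hN, ← Finset.card_univ, ← h1, Finset.powerset_univ]
    refine Finset.sum_congr rfl fun T _ => ?_
    rw [one_pow, mul_one]
  have h3 : ∑ T : Finset α, y ^ T.card =
      ∑ T ∈ (univ : Finset (Finset α)).filter (fun T => T.Nonempty), y ^ T.card + 1 := by
    rw [← Finset.sum_filter_add_sum_filter_not univ (fun T : Finset α => T.Nonempty)]
    congr 1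
    have : (univ : Finset (Finset α)).filter (fun T => ¬ T.Nonempty) = {∅} := by
      ext T
      simp [Finset.not_nonempty_iff_eq_empty]
    rw [this, Finset.sum_singleton, Finset.card_empty, pow_zero]
  have h4 : (y + 1) ^ N ≤ Real.exp (N * y) := by
    rw [Real.exp_nat_mul]
    exact pow_le_pow_left₀ (by linarith) (Real.add_one_le_exp y) N
  linarith

variable {V : Type*} [Fintype V] [DecidableEq V] {k m : ℕ}

omit [DecidableEq V] in
theorem fr_all_not_le [Nonempty V] (q : (Fin k → V) → Prop) {x : ℝ} (hx : x ≤ fr q) :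
    fr (fun E : Fin m → (Fin k → V) => ∀ j, ¬ q (E j)) ≤ Real.exp (-x) ^ m := by
  classical
  rw [fr_pi (fun (_ : Fin m) (e : Fin k → V) => ¬ q e), Finset.prod_const, Finset.card_univ,
    Fintype.card_fin, fr_not]
  have h0 : 0 ≤ 1 - fr q := by
    have := fr_le_one q
    linarith
  refine pow_le_pow_left₀ h0 ?_ m
  have := Real.add_one_le_exp (-x)
  linarith

theorem fr_bad_T [Nonempty V] {D : ℕ} (hD : 1 ≤ D) {g : ℝ} (hg0 : 0 ≤ g)
    (hg : g ≤ (1 / D : ℝ) ^ k - ((k + 1 : ℕ) : ℝ) ^ 2 / Fintype.card V)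
    (T : Finset V) (hT : D * T.card ≤ (D - 1) * Fintype.card V) :
    fr (fun E : Fin m → (Fin (k + 1) → V) =>
      ∀ j, ¬ (Function.Injective (E j) ∧ (univ.filter fun i => E j i ∈ T).card = 1)) ≤
      Real.exp (-((m : ℝ) * g / Fintype.card V)) ^ T.card := by
  classical
  have hn : (0 : ℝ) < Fintype.card V := card_pos'
  have h1 : (T.card : ℝ) / Fintype.card V * g ≤
      fr fun x : Fin (k + 1) → V => Function.Injective x ∧
        (univ.filter fun i => x i ∈ T).card = 1 :=
    (mul_le_mul_of_nonneg_left hg (by positivity)).trans (fr_uniq_ge hD T hT)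
  refine (fr_all_not_le (m := m) _ h1).trans (le_of_eq ?_)
  rw [← Real.exp_nat_mul, ← Real.exp_nat_mul]
  congr 1
  ring

theorem fr_bad_S [Nonempty V] {D : ℕ} (hD : 1 ≤ D) {g : ℝ}
    (hg : g ≤ (1 / D : ℝ) ^ k - (k : ℝ) ^ 2 / Fintype.card V)
    (S : Finset V) (hS : Fintype.card V < D * S.card) :
    fr (fun E : Fin m → (Fin k → V) =>
      ∀ j, ¬ (Function.Injective (E j) ∧ ∀ i, E j i ∈ S)) ≤ Real.exp (-g) ^ m := by
  classical
  have hn : (0 : ℝ) < Fintype.card V := card_pos'
  have h1 : g ≤ fr fun x : Fin k → V => Function.Injective x ∧ ∀ i, x i ∈ S :=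
    hg.trans (fr_inside_ge hD S hS)
  exact fr_all_not_le (m := m) _ h1

theorem fr_bad_J [Nonempty V] (c s : ℕ) (J : Finset (Fin m)) (hJ : J.card ≤ s) :
    fr (fun E : Fin m → (Fin k → V) => (J.biUnion (edge E)).card < c * J.card) ≤
      ((Fintype.card V : ℝ) ^ c * ((c * s : ℕ) / Fintype.card V : ℝ) ^ k) ^ J.card := by
  classical
  have hn : (0 : ℝ) < Fintype.card V := by exact_mod_cast Fintype.card_pos
  have v₀ : V := Classical.arbitrary V
  have h1 : fr (fun E : Fin m → Fin k → V => (J.biUnion (edge E)).card < c * J.card) ≤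
      fr (fun E : Fin m → Fin k → V => ∃ g ∈ (univ : Finset (Fin (c * J.card) → V)),
        ∀ j i, j ∈ J → E j i ∈ univ.image g) := by
    refine fr_mono fun E hE => ?_
    set U := J.biUnion (edge E) with hU
    refine ⟨fun a => if h : a.1 < U.card then (U.equivFin.symm ⟨a.1, h⟩).1 else v₀,
      Finset.mem_univ _, ?_⟩
    intro j i hj
    have hm : E j i ∈ U := Finset.mem_biUnion.2 ⟨j, hj, mem_edge E j i⟩
    set b := U.equivFin ⟨E j i, hm⟩ with hb
    refine Finset.mem_image.2 ⟨⟨b.1, lt_trans b.2 hE⟩, Finset.mem_univ _, ?_⟩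
    simp only [Fin.is_lt, dite_true, Fin.eta]
    rw [hb, Equiv.symm_apply_apply]
  refine h1.trans ((fr_exists_le _ _).trans ?_)
  have h2 : ∀ g ∈ (univ : Finset (Fin (c * J.card) → V)),
      fr (fun E : Fin m → Fin k → V => ∀ j i, j ∈ J → E j i ∈ univ.image g) ≤
        (((c * s : ℕ) / Fintype.card V : ℝ) ^ k) ^ J.card := by
    intro g _
    rw [fr_pi (fun j (e : Fin k → V) => ∀ i, j ∈ J → e i ∈ univ.image g)]
    have h3 : ∀ j, fr (fun e : Fin k → V => ∀ i, j ∈ J → e i ∈ univ.image g) ≤
        if j ∈ J then ((c * s : ℕ) / Fintype.card V : ℝ) ^ k else 1 := by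
      intro j
      split_ifs with hj
      · rw [fr_pi (fun (_ : Fin k) (v : V) => j ∈ J → v ∈ univ.image g), Finset.prod_const,
          Finset.card_univ, Fintype.card_fin]
        refine pow_le_pow_left₀ (fr_nonneg _) ?_ k
        have h4 : fr (fun v : V => j ∈ J → v ∈ univ.image g) =
            ((univ.image g).card : ℝ) / Fintype.card V := by
          rw [← fr_mem]
          exact fr_congr fun v => by simp [hj]
        rw [h4]
        gcongr
        refine Finset.card_image_le.trans ?_
        rw [Finset.card_univ, Fintype.card_fin]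
        exact Nat.mul_le_mul_left c hJ
      · exact fr_le_one _
    refine (Finset.prod_le_prod (fun j _ => fr_nonneg _) (fun j _ => h3 j)).trans (le_of_eq ?_)
    rw [Finset.prod_ite, Finset.prod_const_one, mul_one, Finset.prod_const]
    congr 2
    ext j; simp
  refine (Finset.sum_le_sum h2).trans (le_of_eq ?_)
  rw [Finset.sum_const, Finset.card_univ, Fintype.card_fun, Fintype.card_fin, nsmul_eq_mul,
    mul_pow, Nat.cast_pow, pow_mul]

/-- Few edges are not injective. -/
theorem fr_few [Nonempty V] (hm : 0 < m) :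
    fr (fun E : Fin m → (Fin k → V) =>
      m ≤ 2 * (univ.filter fun j => ¬ Function.Injective (E j)).card) ≤
      2 * ((k : ℝ) ^ 2 / Fintype.card V) := by
  classical
  have hm0 : (0 : ℝ) < m := by exact_mod_cast hm
  have h1 := markov (Ω := Fin m → (Fin k → V))
    (f := fun E => ∑ j, if ¬ Function.Injective (E j) then (1 : ℝ) else 0)
    (fun E => Finset.sum_nonneg fun j _ => by split_ifs <;> norm_num)
    (c := (m : ℝ) / 2)
    (fun E => m ≤ 2 * (univ.filter fun j => ¬ Function.Injective (E j)).card) (by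
      intro E hE
      beta_reduce
      rw [Finset.sum_boole]
      have : (m : ℝ) ≤ 2 * ((univ.filter fun j => ¬ Function.Injective (E j)).card : ℝ) := by
        exact_mod_cast hE
      linarith)
  have h2 : av (fun E : Fin m → (Fin k → V) =>
      ∑ j, if ¬ Function.Injective (E j) then (1 : ℝ) else 0) ≤
      m * ((k : ℝ) ^ 2 / Fintype.card V) := by
    unfold av
    rw [Finset.sum_comm, Finset.sum_div]
    refine (Finset.sum_le_card_nsmul _ _ ((k : ℝ) ^ 2 / Fintype.card V) ?_).trans ?_
    · intro j _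
      have h3 := fr_eq_av (fun E : Fin m → (Fin k → V) => ¬ Function.Injective (E j))
      unfold av at h3
      rw [← h3]
      have h4 : fr (fun E : Fin m → (Fin k → V) => ¬ Function.Injective (E j)) ≤
          fr (fun E : Fin m → (Fin k → V) => ∀ l, l = j → ¬ Function.Injective (E l)) := by
        refine fr_mono fun E hE l hl => ?_
        rw [hl]; exact hE
      refine h4.trans ?_
      rw [fr_pi (fun l (e : Fin k → V) => l = j → ¬ Function.Injective e)]
      have h5 : ∀ l, fr (fun e : Fin k → V => l = j → ¬ Function.Injective e) ≤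
          if l = j then (k : ℝ) ^ 2 / Fintype.card V else 1 := by
        intro l
        split_ifs with hl
        · exact le_trans (fr_mono fun v hv => hv hl) fr_not_inj
        · exact fr_le_one _
      refine (Finset.prod_le_prod (fun l _ => fr_nonneg _) (fun l _ => h5 l)).trans
        (le_of_eq ?_)
      rw [Finset.prod_ite_eq']
      simp
    · rw [nsmul_eq_mul, Finset.card_univ, Fintype.card_fin]
  have h3 := h1.trans h2
  have h4 : fr (fun E : Fin m → (Fin k → V) =>
      m ≤ 2 * (univ.filter fun j => ¬ Function.Injective (E j)).card) * m ≤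
      (2 * ((k : ℝ) ^ 2 / Fintype.card V)) * m := by linarith
  exact le_of_mul_le_mul_right h4 hm0

/-- Existence of the hypergraph. -/
theorem hyp_exists [Nonempty V] (c s d θ D M : ℕ) (μ p g g' : ℝ)
    (hD : 4 ≤ D) (hd : d + 2 ≤ θ) (hθ : θ ≤ k + 1) (hcd : 2 * (k + 1) ≤ 2 * c + d) (hs : 2 ≤ s)
    (hMn : Fintype.card V ≤ M)
    (hμ0 : 0 ≤ μ) (hμ1 : μ ≤ 1)
    (hnum : (3 / 2 : ℝ) ^ (k + 1 - θ) * (1 - μ / 3) ^ (k + 1) ≤ μ)
    (hp : μ + (3 * ((k + 1 : ℕ) : ℝ) / D + 2 * (((k + 1 : ℕ) : ℝ) ^ 2 / Fintype.card V)) ≤ p)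
    (hg0 : 0 ≤ g) (hg : g ≤ (1 / D : ℝ) ^ k - ((k + 1 : ℕ) : ℝ) ^ 2 / Fintype.card V)
    (hg' : g' ≤ (1 / D : ℝ) ^ (k + 1) - ((k + 1 : ℕ) : ℝ) ^ 2 / Fintype.card V)
    (h1 : Real.exp (Fintype.card V * Real.exp (-(((2 * M : ℕ) : ℝ) * g / Fintype.card V))) - 1
      ≤ 1 / 8)
    (h2 : 2 ^ Fintype.card V * Real.exp (-g') ^ (2 * M) ≤ 1 / 8)
    (h3 : Real.exp (((2 * M : ℕ) : ℝ) * ((Fintype.card V : ℝ) ^ c *
      ((c * s : ℕ) / Fintype.card V : ℝ) ^ (k + 1))) - 1 ≤ 1 / 8)
    (h4 : 2 * (((k + 1 : ℕ) : ℝ) ^ 2 / Fintype.card V) ≤ 1 / 8)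
    (h5 : (Fintype.card V : ℝ) ^ Fintype.card V * (2 ^ Fintype.card V * 2 ^ Fintype.card V) *
      (2 * ((1 + p) ^ 2 / 2) ^ M) ≤ 1 / 8) :
    ∃ (ι : Type) (_ : Fintype ι) (_ : DecidableEq ι) (E : ι → Fin (k + 1) → V),
      Props E θ D ∧
      (∀ G : Finset ι, G.card ≤ s → c * G.card ≤ (G.biUnion (edge E)).card) ∧
      Fintype.card V < Fintype.card ι ∧ Fintype.card ι ≤ 2 * M := by
  classical
  have hM0 : 0 < M := lt_of_lt_of_le Fintype.card_pos hMn
  have hb1 : fr (fun E : Fin (2 * M) → (Fin (k + 1) → V) =>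
      ∃ T ∈ (univ : Finset (Finset V)).filter
        (fun T => T.Nonempty ∧ D * T.card ≤ (D - 1) * Fintype.card V),
        ∀ j, ¬ (Function.Injective (E j) ∧ (univ.filter fun i => E j i ∈ T).card = 1)) ≤
      1 / 8 := by
    refine (fr_exists_le _ _).trans (le_trans ?_ h1)
    refine le_trans ?_ (sum_pow_le (Fintype.card V) (Real.exp_pos _).le rfl)
    refine le_trans (Finset.sum_le_sum fun T hT => ?_)
      (Finset.sum_le_sum_of_subset_of_nonneg (t := univ.filter fun T : Finset V => T.Nonempty)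
        ?_ fun T _ _ => by positivity)
    · exact fr_bad_T (by omega) hg0 hg T (Finset.mem_filter.1 hT).2.2
    · intro T hT
      exact Finset.mem_filter.2 ⟨Finset.mem_univ _, (Finset.mem_filter.1 hT).2.1⟩
  have hb2 : fr (fun E : Fin (2 * M) → (Fin (k + 1) → V) =>
      ∃ S ∈ (univ : Finset (Finset V)).filter (fun S => Fintype.card V < D * S.card),
        ∀ j, ¬ (Function.Injective (E j) ∧ ∀ i, E j i ∈ S)) ≤ 1 / 8 := by
    refine (fr_exists_le _ _).trans (le_trans ?_ h2)
    refine (Finset.sum_le_card_nsmul _ _ (Real.exp (-g') ^ (2 * M)) ?_).trans ?_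
    · intro S hS
      exact fr_bad_S (by omega) hg' S (Finset.mem_filter.1 hS).2
    · rw [nsmul_eq_mul]
      refine mul_le_mul_of_nonneg_right ?_ (by positivity)
      have : ((univ : Finset (Finset V)).filter (fun S => Fintype.card V < D * S.card)).card ≤
          2 ^ Fintype.card V := by
        refine (Finset.card_filter_le _ _).trans ?_
        rw [Finset.card_univ, Fintype.card_finset]
      exact_mod_cast this
  have hb3 : fr (fun E : Fin (2 * M) → (Fin (k + 1) → V) =>
      ∃ J ∈ (univ : Finset (Finset (Fin (2 * M)))).filter (fun J => J.Nonempty ∧ J.card ≤ s),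
        (J.biUnion (edge E)).card < c * J.card) ≤ 1 / 8 := by
    refine (fr_exists_le _ _).trans (le_trans ?_ h3)
    refine le_trans ?_ (sum_pow_le (2 * M) (by positivity) (Fintype.card_fin (2 * M)))
    refine le_trans (Finset.sum_le_sum fun J hJ => ?_)
      (Finset.sum_le_sum_of_subset_of_nonneg
        (t := univ.filter fun J : Finset (Fin (2 * M)) => J.Nonempty)
        ?_ fun J _ _ => by positivity)
    · exact fr_bad_J c s J (Finset.mem_filter.1 hJ).2.2
    · intro J hJ
      exact Finset.mem_filter.2 ⟨Finset.mem_univ _, (Finset.mem_filter.1 hJ).2.1⟩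
  have hb4 := (fr_few (V := V) (k := k + 1) (m := 2 * M) (by omega)).trans h4
  have hb5 : fr (fun E : Fin (2 * M) → (Fin (k + 1) → V) =>
      ∃ t ∈ (univ : Finset ((V → V) × Finset V × Finset V)).filter
        (fun t => (D - 3) * Fintype.card V < D * t.2.1.card ∧ ∀ v ∈ t.2.1, t.1 v ≠ v),
        Compat (near d) E ∧ RigFail θ t.1 t.2.1 t.2.2 E) ≤ 1 / 8 := by
    refine (fr_exists_le _ _).trans (le_trans ?_ h5)
    refine (Finset.sum_le_card_nsmul _ _ (2 * ((1 + p) ^ 2 / 2) ^ M) ?_).trans ?_
    · intro t ht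
      obtain ⟨ha, hb⟩ := (Finset.mem_filter.1 ht).2
      exact fr_rigFail (by omega) hd hθ hμ0 hμ1 hnum hp t.1 t.2.1 t.2.2 ha hb M
    · rw [nsmul_eq_mul]
      refine mul_le_mul_of_nonneg_right ?_ (by positivity)
      have : ((univ : Finset ((V → V) × Finset V × Finset V)).filter
        (fun t => (D - 3) * Fintype.card V < D * t.2.1.card ∧ ∀ v ∈ t.2.1, t.1 v ≠ v)).card ≤
          Fintype.card V ^ Fintype.card V * (2 ^ Fintype.card V * 2 ^ Fintype.card V) := by
        refine (Finset.card_filter_le _ _).trans (le_of_eq ?_)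
        rw [Finset.card_univ, Fintype.card_prod, Fintype.card_prod, Fintype.card_fun,
          Fintype.card_finset]
      exact_mod_cast this
  obtain ⟨E, hE⟩ := exists_not_of_fr_lt (Ω := Fin (2 * M) → (Fin (k + 1) → V))
    (lt_of_le_of_lt ((fr_or_le _ _).trans (add_le_add hb1 ((fr_or_le _ _).trans
      (add_le_add hb2 ((fr_or_le _ _).trans (add_le_add hb3 ((fr_or_le _ _).trans
        (add_le_add hb4 hb5)))))))) (by norm_num))
  simp only [not_or] at hE
  obtain ⟨c1, c2, c3, c4, c5⟩ := hE
  have hA : ∀ G : Finset (Fin (2 * M)), G.card ≤ s →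
      c * G.card ≤ (G.biUnion (edge E)).card := by
    intro G hG
    rcases G.eq_empty_or_nonempty with rfl | hne
    · simp
    · by_contra hlt
      exact c3 ⟨G, Finset.mem_filter.2 ⟨Finset.mem_univ _, hne, hG⟩, not_le.1 hlt⟩
  have hcompat : Compat (near d) E := by
    intro j j' hjj
    have hjc : ({j, j'} : Finset (Fin (2 * M))).card = 2 := Finset.card_pair hjj
    have h6 := hA {j, j'} (by rw [hjc]; exact hs)
    rw [hjc, Finset.biUnion_insert, Finset.singleton_biUnion] at h6
    have h7 := Finset.card_union_add_card_inter (edge E j) (edge E j')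
    have h8 := edge_card E j
    have h9 := edge_card E j'
    have h10 : (edge E j ∩ edge E j').card ≤ d := by omega
    exact h10
  refine ⟨{j : Fin (2 * M) // Function.Injective (E j)}, inferInstance, inferInstance,
    fun j => E j.1, ?_, ?_, ?_, ?_⟩
  · refine ⟨fun j => j.2, ?_, ?_, ?_⟩
    · intro T hT hT2
      by_contra hno
      push Not at hno
      refine c1 ⟨T, Finset.mem_filter.2 ⟨Finset.mem_univ _, hT, hT2⟩, fun j hj => ?_⟩
      exact hno ⟨j, hj.1⟩ hj.2
    · intro S hS
      by_contra hno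
      refine c2 ⟨S, Finset.mem_filter.2 ⟨Finset.mem_univ _, hS⟩, fun j hj => ?_⟩
      exact hno ⟨⟨j, hj.1⟩, hj.2⟩
    · intro π W Z hW hπ
      by_contra hno
      push Not at hno
      refine c5 ⟨(π, W, Z), Finset.mem_filter.2 ⟨Finset.mem_univ _, hW, hπ⟩, hcompat, ?_⟩
      intro j hj hjW
      obtain ⟨j', hj1, hj2⟩ := hno ⟨j, hj⟩ hjW
      exact ⟨j'.1, j'.2, hj1, hj2⟩
  · intro G hG
    have h6 := hA (G.map (Function.Embedding.subtype _)) (by rw [Finset.card_map]; exact hG)
    rw [Finset.card_map] at h6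
    refine h6.trans (Finset.card_le_card ?_)
    intro v hv
    obtain ⟨j, hj, hv⟩ := Finset.mem_biUnion.1 hv
    obtain ⟨j', hj', rfl⟩ := Finset.mem_map.1 hj
    exact Finset.mem_biUnion.2 ⟨j', hj', hv⟩
  · rw [Fintype.card_subtype]
    have h6 := Finset.card_filter_add_card_filter_not (s := (univ : Finset (Fin (2 * M))))
      (fun j => Function.Injective (E j))
    rw [Finset.card_univ, Fintype.card_fin] at h6
    omega
  · refine (Fintype.card_subtype_le _).trans ?_
    simp

/-- The right-hand sides can be chosen so that the system has no solution. -/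
theorem beta_exists {ι : Type*} [Fintype ι] [DecidableEq ι] (E : ι → Fin k → V)
    (h : Fintype.card V < Fintype.card ι) :
    ∃ β : ι → ZMod 2, ∀ x : V → Bool, ∃ j, ¬ EqAt E β j x := by
  classical
  have hns : ¬ Function.Surjective fun (x : V → Bool) (j : ι) => par E j x := by
    intro hs
    have := Fintype.card_le_of_surjective _ hs
    rw [Fintype.card_fun, Fintype.card_fun, Fintype.card_bool, ZMod.card] at this
    exact absurd (Nat.pow_lt_pow_right (by norm_num) h) (not_lt.2 this)
  unfold Function.Surjective at hns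
  push Not at hns
  obtain ⟨β, hβ⟩ := hns
  refine ⟨β, fun x => ?_⟩
  have := hβ x
  by_contra hn
  push Not at hn
  exact this (funext hn)

/-- Values of the random restriction. -/
def code {M : ℕ} (a : Fin M) : Option Bool :=
  if a.1 = 0 then some false else if a.1 = 1 then some true else none

theorem fr_code_ne {M : ℕ} (hM : 2 ≤ M) (b : Bool) :
    fr (fun a : Fin M => ¬ code a = some b) ≤ Real.exp (-(1 / M : ℝ)) := by
  classical
  have : Nonempty (Fin M) := ⟨⟨0, by omega⟩⟩
  rw [fr_not]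
  have h1 : (1 / M : ℝ) ≤ fr (fun a : Fin M => code a = some b) := by
    have h2 : fr (fun a : Fin M => a ∈ ({if b then ⟨1, by omega⟩ else ⟨0, by omega⟩} :
        Finset (Fin M))) ≤ fr (fun a : Fin M => code a = some b) := by
      refine fr_mono fun a ha => ?_
      rw [Finset.mem_singleton] at ha
      subst ha
      cases b <;> simp [code]
    rw [fr_mem, Finset.card_singleton, Fintype.card_fin] at h2
    simpa using h2
  have := Real.add_one_le_exp (-(1 / M : ℝ))
  linarith

theorem fr_code_set {M : ℕ} (hM : 2 ≤ M) :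
    fr (fun a : Fin M => code a ≠ none) ≤ 2 / M := by
  classical
  have h2 : fr (fun a : Fin M => code a ≠ none) ≤
      fr (fun a : Fin M => a ∈ ({⟨0, by omega⟩, ⟨1, by omega⟩} : Finset (Fin M))) := by
    refine fr_mono fun a ha => ?_
    unfold code at ha
    split_ifs at ha with h0 h1
    · simp [Fin.ext_iff, h0]
    · simp [Fin.ext_iff, h1]
    · exact absurd rfl ha
  refine h2.trans ?_
  rw [fr_mem, Fintype.card_fin]
  gcongr
  have := Finset.card_le_two (a := (⟨0, by omega⟩ : Fin M)) (b := ⟨1, by omega⟩)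
  exact_mod_cast this

theorem fr_clause {M : ℕ} (hM : 2 ≤ M) (C : Clause V) :
    fr (fun r : V → Fin M => ¬ TSat (fun v => code (r v)) C) ≤
      Real.exp (-(1 / M : ℝ)) ^ (vars C).card := by
  classical
  have hch : ∀ v, ∃ b, v ∈ vars C → (v, b) ∈ C := by
    intro v
    by_cases hv : v ∈ vars C
    · obtain ⟨l, hl, rfl⟩ := Finset.mem_image.1 hv
      exact ⟨l.2, fun _ => hl⟩
    · exact ⟨true, fun h => absurd h hv⟩
  choose b hb using hch
  have h1 : fr (fun r : V → Fin M => ¬ TSat (fun v => code (r v)) C) ≤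
      fr (fun r : V → Fin M => ∀ v, v ∈ vars C → ¬ code (r v) = some (b v)) := by
    refine fr_mono fun r hr v hv h => hr ⟨(v, b v), hb v hv, h⟩
  refine h1.trans ?_
  rw [fr_pi (fun v (a : Fin M) => v ∈ vars C → ¬ code a = some (b v))]
  have h3 : ∀ v, fr (fun a : Fin M => v ∈ vars C → ¬ code a = some (b v)) ≤
      if v ∈ vars C then Real.exp (-(1 / M : ℝ)) else 1 := by
    intro v
    split_ifs with hv
    · refine le_trans (fr_mono fun a ha => ha hv) (fr_code_ne hM (b v))
    · exact fr_le_one _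
  refine (Finset.prod_le_prod (fun v _ => fr_nonneg _) (fun v _ => h3 v)).trans (le_of_eq ?_)
  rw [Finset.prod_ite, Finset.prod_const_one, mul_one, Finset.prod_const]
  congr 2
  ext v; simp

theorem fr_edge {M : ℕ} (hM : 2 ≤ M) (q : ℕ) (e : Finset V) :
    fr (fun r : V → Fin M => q ≤ (e.filter fun v => code (r v) ≠ none).card) ≤
      2 ^ e.card * (2 / M : ℝ) ^ q := by
  classical
  have h1 : fr (fun r : V → Fin M => q ≤ (e.filter fun v => code (r v) ≠ none).card) ≤
      fr (fun r : V → Fin M => ∃ P ∈ e.powersetCard q, ∀ v, v ∈ P → code (r v) ≠ none) := by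
    refine fr_mono fun r hr => ?_
    obtain ⟨P, hP, hc⟩ := Finset.exists_subset_card_eq hr
    refine ⟨P, Finset.mem_powersetCard.2 ⟨hP.trans (Finset.filter_subset _ _), hc⟩, ?_⟩
    intro v hv
    exact (Finset.mem_filter.1 (hP hv)).2
  refine h1.trans ((fr_exists_le _ _).trans ?_)
  have h2 : ∀ P ∈ e.powersetCard q,
      fr (fun r : V → Fin M => ∀ v, v ∈ P → code (r v) ≠ none) ≤ (2 / M : ℝ) ^ q := by
    intro P hP
    rw [fr_pi (fun v (a : Fin M) => v ∈ P → code a ≠ none)]
    have h3 : ∀ v, fr (fun a : Fin M => v ∈ P → code a ≠ none) ≤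
        if v ∈ P then (2 / M : ℝ) else 1 := by
      intro v
      split_ifs with hv
      · refine le_trans (fr_mono fun a ha => ha hv) (fr_code_set hM)
      · exact fr_le_one _
    refine (Finset.prod_le_prod (fun v _ => fr_nonneg _) (fun v _ => h3 v)).trans (le_of_eq ?_)
    rw [Finset.prod_ite, Finset.prod_const_one, mul_one, Finset.prod_const]
    congr 1
    rw [← (Finset.mem_powersetCard.1 hP).2]
    congr 1
    ext v; simp
  refine (Finset.sum_le_sum h2).trans ?_
  rw [Finset.sum_const, nsmul_eq_mul, Finset.card_powersetCard]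
  have : ((e.card.choose q : ℕ) : ℝ) ≤ 2 ^ e.card := by
    exact_mod_cast Nat.choose_le_two_pow e.card q
  gcongr

/-- Existence of the restriction. -/
theorem restriction_exists {ι : Type*} [Fintype ι] {M : ℕ} (hM : 2 ≤ M) (q w : ℕ)
    (E : ι → Fin k → V) (L : List (Clause V))
    (hnum : (L.length : ℝ) * Real.exp (-(1 / M : ℝ)) ^ w +
      Fintype.card ι * (2 ^ k * (2 / M : ℝ) ^ q) < 1) :
    ∃ ρ : V → Option Bool, (∀ C ∈ L, TSat ρ C ∨ (vars C).card ≤ w) ∧
      ∀ j, ((edge E j).filter fun v => ρ v ≠ none).card < q := by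
  classical
  have : Nonempty (Fin M) := ⟨⟨0, by omega⟩⟩
  have hb1 : fr (fun r : V → Fin M => ∃ C ∈ L.toFinset.filter (fun C => w < (vars C).card),
      ¬ TSat (fun v => code (r v)) C) ≤ (L.length : ℝ) * Real.exp (-(1 / M : ℝ)) ^ w := by
    refine (fr_exists_le _ _).trans ?_
    refine (Finset.sum_le_card_nsmul _ _ (Real.exp (-(1 / M : ℝ)) ^ w) ?_).trans ?_
    · intro C hC
      refine (fr_clause hM C).trans ?_
      refine pow_le_pow_of_le_one (Real.exp_pos _).le ?_ (Finset.mem_filter.1 hC).2.le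
      rw [Real.exp_le_one_iff]
      have : (0 : ℝ) ≤ 1 / M := by positivity
      linarith
    · rw [nsmul_eq_mul]
      have h1 : (L.toFinset.filter fun C => w < (vars C).card).card ≤ L.length :=
        (Finset.card_filter_le _ _).trans (List.toFinset_card_le L)
      have h2 : ((L.toFinset.filter fun C => w < (vars C).card).card : ℝ) ≤ L.length := by
        exact_mod_cast h1
      exact mul_le_mul_of_nonneg_right h2 (by positivity)
  have hb2 : fr (fun r : V → Fin M => ∃ j ∈ (univ : Finset ι),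
      q ≤ ((edge E j).filter fun v => code (r v) ≠ none).card) ≤
      Fintype.card ι * (2 ^ k * (2 / M : ℝ) ^ q) := by
    refine (fr_exists_le _ _).trans ?_
    refine (Finset.sum_le_card_nsmul _ _ (2 ^ k * (2 / M : ℝ) ^ q) ?_).trans ?_
    · intro j _
      refine (fr_edge hM q (edge E j)).trans ?_
      refine mul_le_mul_of_nonneg_right ?_ (by positivity)
      exact pow_le_pow_right₀ (by norm_num) (edge_card E j)
    · rw [nsmul_eq_mul, Finset.card_univ]
  obtain ⟨r, hr⟩ := exists_not_of_fr_lt (lt_of_le_of_lt ((fr_or_le _ _).trans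
    (add_le_add hb1 hb2)) hnum)
  push Not at hr
  obtain ⟨h1, h2⟩ := hr
  refine ⟨fun v => code (r v), ?_, ?_⟩
  · intro C hC
    by_cases hw : (vars C).card ≤ w
    · exact Or.inr hw
    · exact Or.inl (h1 C (Finset.mem_filter.2 ⟨List.mem_toFinset.2 hC, not_le.1 hw⟩))
  · intro j
    exact h2 j (Finset.mem_univ j)

end Hyp

end Pool.Agent.SR
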