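import Mathlib
import Pool.Agent.Lib_helper80.SR.Hyp

/-!
# Exponential lower bound for substitution redundancy without new variables
-/

namespace Pool.Agent.SR

open Finset Filter

theorem exp_small {x : ℝ} (hx : x ≤ 1 / 9) : Real.exp x - 1 ≤ 1 / 8 := by
  have h1 : Real.exp x ≤ Real.exp (1 / 9) := Real.exp_le_exp.2 hx
  have h2 := Real.add_one_le_exp (-(1 / 9 : ℝ))
  have h3 : Real.exp (1 / 9) * Real.exp (-(1 / 9 : ℝ)) = 1 := by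
    rw [← Real.exp_add]; simp
  have h4 : 0 < Real.exp (1 / 9) := Real.exp_pos _
  nlinarith

theorem num_s {t : ℕ} (h : 30 ≤ t) : 4 * (t * (t + 2)) + 4 * 201 ≤ 6 * t ^ 2 := by nlinarith

theorem num_w {t : ℕ} (h : 30 ≤ t) : 201 ≤ t * (t + 2) := by nlinarith

theorem num_exp {t : ℝ} (ht1 : 1 ≤ t) (h : t ^ 29 * Real.exp (-t) ≤ 1 / 64) :
    Real.exp (-t) ≤ 1 / 64 := by
  have h1 : (1 : ℝ) ≤ t ^ 29 := one_le_pow₀ ht1
  have h2 : 0 < Real.exp (-t) := Real.exp_pos _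
  nlinarith

theorem num_δ {P t : ℝ} (hP : 0 < P) (ht1 : 1 ≤ t) (h : (2 * 201 ^ 2 * P) / t ≤ 1) :
    ((200 + 1 : ℕ) : ℝ) ^ 2 / t ^ 29 ≤ 1 / P / 2 := by
  have ht : 0 < t := by linarith
  have h1 : t ≤ t ^ 29 := le_self_pow₀ ht1 (by norm_num)
  have h2 : 2 * 201 ^ 2 * P ≤ t := by
    rw [div_le_one ht] at h
    exact h
  rw [div_div, div_le_div_iff₀ (by positivity) (by positivity)]
  push_cast
  nlinarith

theorem num_h1 {P t : ℝ} (hP : 0 < P) (ht : 0 < t) (h : t ^ 29 * Real.exp (-t) ≤ 1 / 64) :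
    Real.exp (t ^ 29 * Real.exp (-((2 * (P * t ^ 30)) * (1 / P) / t ^ 29))) - 1 ≤ 1 / 8 := by
  have h1 : (2 * (P * t ^ 30)) * (1 / P) / t ^ 29 = 2 * t := by
    field_simp
  rw [h1]
  refine exp_small ?_
  have h2 : Real.exp (-(2 * t)) ≤ Real.exp (-t) := by
    rw [Real.exp_le_exp]; linarith
  calc t ^ 29 * Real.exp (-(2 * t)) ≤ t ^ 29 * Real.exp (-t) :=
        mul_le_mul_of_nonneg_left h2 (by positivity)
    _ ≤ 1 / 64 := h
    _ ≤ 1 / 9 := by norm_num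

theorem num_h2 {P t : ℕ} (hP : 0 < P) (ht : 0 < t) (h : Real.exp (-(t : ℝ)) ≤ 1 / 64) :
    (2 : ℝ) ^ (t ^ 29) * Real.exp (-(1 / (P : ℝ) / 2)) ^ (2 * (P * t ^ 30)) ≤ 1 / 8 := by
  have hPR : (0 : ℝ) < P := by exact_mod_cast hP
  have htR : (0 : ℝ) < t := by exact_mod_cast ht
  have h1 : Real.exp (-(1 / (P : ℝ) / 2)) ^ (2 * (P * t ^ 30)) =
      Real.exp (-(t : ℝ)) ^ (t ^ 29) := by
    rw [← Real.exp_nat_mul, ← Real.exp_nat_mul]
    congr 1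
    push_cast
    field_simp
  rw [h1, ← mul_pow]
  have h2 : 2 * Real.exp (-(t : ℝ)) ≤ 1 / 32 := by linarith
  have h3 : 0 ≤ 2 * Real.exp (-(t : ℝ)) := by positivity
  calc (2 * Real.exp (-(t : ℝ))) ^ (t ^ 29) ≤ (1 / 32) ^ (t ^ 29) :=
        pow_le_pow_left₀ h3 h2 _
    _ ≤ (1 / 32) ^ 1 := pow_le_pow_of_le_one (by norm_num) (by norm_num)
        (Nat.one_le_pow _ _ ht)
    _ ≤ 1 / 8 := by norm_num

theorem num_h3_aux {P t C : ℝ} (ht : 0 < t) :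
    (2 * (P * t ^ 30)) * ((t ^ 29) ^ 186 * (C * t ^ 2 / t ^ 29) ^ (200 + 1)) =
      2 * P * C ^ 201 / t ^ 3 := by
  have e0 : C * t ^ 2 / t ^ 29 = C / t ^ 27 := by
    rw [div_eq_div_iff (by positivity) (by positivity)]
    ring
  rw [e0, div_pow, ← pow_mul, ← pow_mul]
  have e1 : t ^ (27 * (200 + 1)) = t ^ 30 * t ^ (29 * 186) * t ^ 3 := by
    rw [← pow_add, ← pow_add]
  rw [e1]
  have h1 : t ^ 30 ≠ 0 := by positivity
  have h2 : t ^ (29 * 186) ≠ 0 := by positivity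
  have h3 : t ^ 3 ≠ 0 := by positivity
  generalize t ^ (29 * 186) = x at *
  generalize t ^ 30 = y at *
  generalize t ^ 3 = z at *
  generalize C ^ (200 + 1) = c at *
  field_simp

theorem num_h3 {P t s : ℕ} (ht : 0 < t) (hs : s ≤ 6 * t ^ 2)
    (h : (2 * (P : ℝ) * 1116 ^ 201) / (t : ℝ) ≤ 1 / 9) :
    Real.exp ((2 * ((P : ℝ) * (t : ℝ) ^ 30)) * (((t : ℝ) ^ 29) ^ 186 *
      (((186 * s : ℕ) : ℝ) / (t : ℝ) ^ 29) ^ (200 + 1))) - 1 ≤ 1 / 8 := by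
  have htR : (0 : ℝ) < t := by exact_mod_cast ht
  have ht1 : (1 : ℝ) ≤ t := by exact_mod_cast ht
  refine exp_small (le_trans ?_ h)
  have h1 : ((186 * s : ℕ) : ℝ) ≤ 1116 * (t : ℝ) ^ 2 := by
    have : 186 * s ≤ 1116 * t ^ 2 := by omega
    exact_mod_cast this
  have h2 : (((186 * s : ℕ) : ℝ) / (t : ℝ) ^ 29) ^ (200 + 1) ≤
      (1116 * (t : ℝ) ^ 2 / (t : ℝ) ^ 29) ^ (200 + 1) := by
    refine pow_le_pow_left₀ (by positivity) ?_ _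
    exact div_le_div_of_nonneg_right h1 (by positivity)
  refine (mul_le_mul_of_nonneg_left (mul_le_mul_of_nonneg_left h2 (by positivity))
    (by positivity)).trans ?_
  rw [num_h3_aux htR]
  exact div_le_div_of_nonneg_left (by positivity) htR (le_self_pow₀ ht1 (by norm_num))

theorem num_h5 {P t : ℕ} (hP : 200 ≤ P) (ht : 0 < t)
    (h : (t : ℝ) ^ 29 * Real.exp (-(t : ℝ)) ≤ 1 / 64) :
    ((t : ℝ) ^ 29) ^ (t ^ 29) * (2 ^ (t ^ 29) * 2 ^ (t ^ 29)) *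
      (2 * ((1 + 41 / 100 : ℝ) ^ 2 / 2) ^ (P * t ^ 30)) ≤ 1 / 8 := by
  have htR : (0 : ℝ) < t := by exact_mod_cast ht
  have hPR : (200 : ℝ) ≤ P := by exact_mod_cast hP
  have h1 : ((1 + 41 / 100 : ℝ) ^ 2 / 2) ≤ Real.exp (-(1 / 200)) := by
    have := Real.add_one_le_exp (-(1 / 200 : ℝ))
    norm_num at this ⊢
    linarith
  have h2 : ((1 + 41 / 100 : ℝ) ^ 2 / 2) ^ (P * t ^ 30) ≤ Real.exp (-(t : ℝ)) ^ (t ^ 29) := by
    refine (pow_le_pow_left₀ (by positivity) h1 _).trans ?_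
    rw [← Real.exp_nat_mul, ← Real.exp_nat_mul, Real.exp_le_exp]
    push_cast
    have h4 : (0 : ℝ) < (t : ℝ) ^ 30 := by positivity
    have h5 : (t : ℝ) ^ 29 * (t : ℝ) = (t : ℝ) ^ 30 := by ring
    nlinarith
  refine (mul_le_mul_of_nonneg_left (mul_le_mul_of_nonneg_left h2 (by norm_num))
    (by positivity)).trans ?_
  have h4 : ((t : ℝ) ^ 29) ^ (t ^ 29) * (2 ^ (t ^ 29) * 2 ^ (t ^ 29)) *
      (2 * Real.exp (-(t : ℝ)) ^ (t ^ 29)) =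
      2 * (4 * ((t : ℝ) ^ 29 * Real.exp (-(t : ℝ)))) ^ (t ^ 29) := by
    generalize t ^ 29 = N
    rw [mul_pow 4, mul_pow, show (4 : ℝ) = 2 * 2 by norm_num, mul_pow 2 2]
    ring
  rw [h4]
  have h5 : (4 * ((t : ℝ) ^ 29 * Real.exp (-(t : ℝ)))) ^ (t ^ 29) ≤ (1 / 16) ^ 1 := by
    refine (pow_le_pow_left₀ (by positivity) (by linarith :
      4 * ((t : ℝ) ^ 29 * Real.exp (-(t : ℝ))) ≤ 1 / 16) _).trans ?_
    exact pow_le_pow_of_le_one (by norm_num) (by norm_num) (Nat.one_le_pow _ _ ht)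
  linarith

theorem num_event (P : ℝ) : ∀ᶠ t : ℕ in atTop, 30 ≤ t ∧
    (t : ℝ) ^ 29 * Real.exp (-(t : ℝ)) ≤ 1 / 64 ∧
    (2 * 201 ^ 2 * P) / (t : ℝ) ≤ 1 ∧ (2 * P * 1116 ^ 201) / (t : ℝ) ≤ 1 / 9 ∧
    (2 * P * (2 ^ 201 * 2 ^ 31)) / (t : ℝ) ≤ 1 / 2 := by
  have h1 : Tendsto (fun t : ℕ => (t : ℝ) ^ 29 * Real.exp (-(t : ℝ))) atTop (nhds 0) :=
    (Real.tendsto_pow_mul_exp_neg_atTop_nhds_zero 29).comp tendsto_natCast_atTop_atTop
  have h2 : Tendsto (fun t : ℕ => (2 * 201 ^ 2 * P) / (t : ℝ)) atTop (nhds 0) :=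
    tendsto_const_div_atTop_nhds_zero_nat _
  have h3 : Tendsto (fun t : ℕ => (2 * P * 1116 ^ 201) / (t : ℝ)) atTop (nhds 0) :=
    tendsto_const_div_atTop_nhds_zero_nat _
  have h4 : Tendsto (fun t : ℕ => (2 * P * (2 ^ 201 * 2 ^ 31)) / (t : ℝ)) atTop (nhds 0) :=
    tendsto_const_div_atTop_nhds_zero_nat _
  filter_upwards [eventually_ge_atTop 30,
    h1.eventually (ge_mem_nhds (by norm_num : (0:ℝ) < 1 / 64)),
    h2.eventually (ge_mem_nhds (by norm_num : (0:ℝ) < 1)),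
    h3.eventually (ge_mem_nhds (by norm_num : (0:ℝ) < 1 / 9)),
    h4.eventually (ge_mem_nhds (by norm_num : (0:ℝ) < 1 / 2))] with t a b c d e
  exact ⟨a, b, c, d, e⟩

theorem const_exists : ∃ D P : ℕ, 4 ≤ D ∧ 30000 ≤ P ∧
    (3 : ℝ) * ((200 + 1 : ℕ) : ℝ) / (D : ℝ) ≤ 2 / 100 ∧ (2 : ℝ) ≤ D ∧
    (1 / (D : ℝ)) ^ (200 + 1) = 1 / (P : ℝ) ∧
    (1 / (D : ℝ)) ^ 200 = (D : ℝ) * (1 / (P : ℝ)) := by
  obtain ⟨D, hD⟩ : ∃ D : ℕ, D = 2 ^ 15 := ⟨_, rfl⟩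
  have hDR : (D : ℝ) = 32768 := by rw [hD]; norm_num
  have hD0 : (0 : ℝ) < D := by rw [hDR]; norm_num
  refine ⟨D, D ^ 201, by rw [hD]; norm_num, ?_, ?_, ?_, ?_, ?_⟩
  · have : D ≤ D ^ 201 := Nat.le_self_pow (by norm_num) _
    refine le_trans ?_ this
    rw [hD]; norm_num
  · rw [hDR]; norm_num
  · rw [hDR]; norm_num
  · rw [one_div_pow]; push_cast; rfl
  · rw [one_div_pow]
    push_cast
    rw [pow_succ (D : ℝ) 200]
    field_simp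

/-- The hypergraph, for all large `t`, with an abstract constant `P`. -/
theorem graph_exists (D P t : ℕ) (hD4 : 4 ≤ D) (hP15 : 30000 ≤ P)
    (hDr : (3 : ℝ) * ((200 + 1 : ℕ) : ℝ) / (D : ℝ) ≤ 2 / 100) (hD1 : (2 : ℝ) ≤ D)
    (hDP : (1 / (D : ℝ)) ^ (200 + 1) = 1 / (P : ℝ))
    (hDP' : (1 / (D : ℝ)) ^ 200 = (D : ℝ) * (1 / (P : ℝ))) (h20 : 30 ≤ t)
    (hn1 : (t : ℝ) ^ 29 * Real.exp (-(t : ℝ)) ≤ 1 / 64)
    (hn2 : (2 * 201 ^ 2 * (P : ℝ)) / (t : ℝ) ≤ 1)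
    (h3 : Real.exp ((2 * ((P : ℝ) * (t : ℝ) ^ 30)) * (((t : ℝ) ^ 29) ^ 186 *
      (((186 * (4 * (t * (t + 2)) + 4 * 201) : ℕ) : ℝ) / (t : ℝ) ^ 29) ^ (200 + 1))) - 1 ≤ 1 / 8) :
    ∃ (ι : Type) (_ : Fintype ι) (_ : DecidableEq ι) (E : ι → Fin 201 → Fin (t ^ 29)),
      Props E 140 D ∧
      (∀ G : Finset ι, G.card ≤ 4 * (t * (t + 2)) + 4 * 201 →
        186 * G.card ≤ (G.biUnion (edge E)).card) ∧
      Fintype.card (Fin (t ^ 29)) < Fintype.card ι ∧ Fintype.card ι ≤ 2 * (P * t ^ 30) := by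
  have ht0 : 0 < t := by omega
  have hP0 : 0 < P := by omega
  have hPR : (0 : ℝ) < P := by exact_mod_cast hP0
  have hP15R : (30000 : ℝ) ≤ P := by exact_mod_cast hP15
  have htR : (0 : ℝ) < t := by exact_mod_cast ht0
  have ht1 : (1 : ℝ) ≤ t := by exact_mod_cast ht0
  have hne : Nonempty (Fin (t ^ 29)) := ⟨⟨0, by positivity⟩⟩
  have hcard : Fintype.card (Fin (t ^ 29)) = t ^ 29 := Fintype.card_fin _
  have hcR : ((Fintype.card (Fin (t ^ 29)) : ℕ) : ℝ) = (t : ℝ) ^ 29 := by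
    rw [hcard]; push_cast; rfl
  have hM2 : ((2 * (P * t ^ 30) : ℕ) : ℝ) = 2 * ((P : ℝ) * (t : ℝ) ^ 30) := by push_cast; rfl
  have hδ := num_δ hPR ht1 hn2
  have hPs : 1 / (P : ℝ) ≤ 1 / 30000 := one_div_le_one_div_of_le (by norm_num) hP15R
  have hPp : 0 < 1 / (P : ℝ) := by positivity
  have h1' := num_h1 hPR htR hn1
  have h2' := num_h2 hP0 ht0 (num_exp ht1 hn1)
  have h5' := num_h5 (P := P) (by omega) ht0 hn1
  have hnum : (3 / 2 : ℝ) ^ (200 + 1 - 140) * (1 - (3 / 8) / 3) ^ (200 + 1) ≤ 3 / 8 := by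
    norm_num
  have hMn : Fintype.card (Fin (t ^ 29)) ≤ P * t ^ 30 := by
    rw [hcard]
    calc t ^ 29 = 1 * t ^ 29 := (one_mul _).symm
      _ ≤ P * t ^ 30 := Nat.mul_le_mul hP0 (Nat.pow_le_pow_right ht0 (by norm_num))
  refine hyp_exists (V := Fin (t ^ 29)) (k := 200)
    186 (4 * (t * (t + 2)) + 4 * 201) 30 140 D (P * t ^ 30) (3 / 8) (41 / 100) (1 / P)
    (1 / P / 2) hD4 (by norm_num) (by norm_num) (by norm_num) (by omega) hMn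
    (by norm_num) (by norm_num) hnum ?_ hPp.le ?_ ?_ ?_ ?_ ?_ ?_ ?_
  · rw [hcR]; linarith
  · rw [hcR, hDP']; nlinarith
  · rw [hcR, hDP]; linarith
  · rw [hcR, hM2]; exact h1'
  · rw [hcard]; exact h2'
  · rw [hcR, hM2]; exact h3
  · rw [hcR]; linarith
  · rw [hcR, hcard]; exact h5'

theorem num_restr {t P N L : ℕ} (ht : 0 < t) (hlt : L < 2 ^ t) (hN : N ≤ 2 * (P * t ^ 30))
    (h : (2 * (P : ℝ) * (2 ^ 201 * 2 ^ 31)) / (t : ℝ) ≤ 1 / 2) :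
    (L : ℝ) * Real.exp (-(1 / (t : ℝ))) ^ (t * (t + 2)) +
      (N : ℝ) * (2 ^ 201 * (2 / (t : ℝ)) ^ 31) < 1 := by
  have htR : (0 : ℝ) < t := by exact_mod_cast ht
  have e1 : Real.exp (-(1 / (t : ℝ))) ^ (t * (t + 2)) = Real.exp (-((t : ℝ) + 2)) := by
    rw [← Real.exp_nat_mul]
    congr 1
    push_cast
    field_simp
  have e2 : (L : ℝ) ≤ Real.exp t := by
    have h1 : (L : ℝ) ≤ 2 ^ t := by exact_mod_cast hlt.le
    have h2 : (2 : ℝ) ^ t ≤ Real.exp 1 ^ t := by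
      refine pow_le_pow_left₀ (by norm_num) ?_ t
      have := Real.add_one_le_exp (1 : ℝ)
      exact le_trans (by norm_num) this
    rw [← Real.exp_nat_mul, mul_one] at h2
    exact h1.trans h2
  have e3 : (L : ℝ) * Real.exp (-(1 / (t : ℝ))) ^ (t * (t + 2)) < 1 / 2 := by
    rw [e1]
    have h3 : (L : ℝ) * Real.exp (-((t : ℝ) + 2)) ≤
        Real.exp t * Real.exp (-((t : ℝ) + 2)) :=
      mul_le_mul_of_nonneg_right e2 (Real.exp_pos _).le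
    have h4 : Real.exp t * Real.exp (-((t : ℝ) + 2)) = Real.exp (-2) := by
      rw [← Real.exp_add]; congr 1; ring
    have h5 : Real.exp (-2) < 1 / 2 := by
      clear h
      have h5 : Real.exp (-2) * Real.exp 2 = 1 := by rw [← Real.exp_add]; simp
      have h6 := Real.add_one_le_exp (2 : ℝ)
      have h7 := Real.exp_pos (-2)
      nlinarith
    exact lt_of_le_of_lt (h3.trans (le_of_eq h4)) h5
  have e4 : (N : ℝ) * (2 ^ 201 * (2 / (t : ℝ)) ^ 31) ≤ 1 / 2 := by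
    have h1 : (N : ℝ) ≤ 2 * (P * (t : ℝ) ^ 30) := by exact_mod_cast hN
    refine (mul_le_mul_of_nonneg_right h1 (by positivity)).trans (le_trans (le_of_eq ?_) h)
    rw [div_pow, pow_succ (t : ℝ) 30]
    have h2 : (t : ℝ) ^ 30 ≠ 0 := by positivity
    generalize (t : ℝ) ^ 30 = y at *
    generalize (2 : ℝ) ^ 201 = a at *
    generalize (2 : ℝ) ^ 31 = b at *
    field_simp
  calc _ < 1 / 2 + 1 / 2 := add_lt_add_of_lt_of_le e3 e4
    _ = 1 := by norm_num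

theorem lower_bound : ∃ K t₀ : ℕ, ∀ t : ℕ, t₀ ≤ t →
    ∃ F : CNF (Fin (t ^ 29)), Unsat F ∧ (∀ C ∈ F, C.card ≤ 201 ∧ ∀ l ∈ C, neg l ∉ C) ∧
      F.card ≤ K * t ^ 30 ∧
      ∀ (L : List (Clause (Fin (t ^ 29)))) (Γ : CNF (Fin (t ^ 29))),
        Derives F L Γ → ∅ ∈ Γ → 2 ^ t ≤ L.length := by
  classical
  obtain ⟨D, P, hD4, hP15, hDr, hD1, hDP, hDP'⟩ := const_exists
  obtain ⟨t₀, ht₀⟩ := eventually_atTop.1 (num_event P)
  refine ⟨2 * P * 2 ^ 201, t₀, fun t ht => ?_⟩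
  obtain ⟨h20, hn1, hn2, hn3, hn4⟩ := ht₀ t ht
  have ht0 : 0 < t := lt_of_lt_of_le (by norm_num) h20
  obtain ⟨ι, _, _, E, hprop, hA, hnι, hιM⟩ := graph_exists D P t hD4 hP15 hDr hD1 hDP hDP' h20
    hn1 hn2 (num_h3 ht0 (num_s h20) hn3)
  obtain ⟨β, hβ⟩ := beta_exists E hnι
  refine ⟨cnf E β, cnf_unsat E β hβ, ?_, ?_, ?_⟩
  · intro C hC
    obtain ⟨j, a, rfl, -, hta⟩ := mem_cnf hC
    refine ⟨clauseOf_card E j a, fun l hl hn => hta ⟨l, hl, hn⟩⟩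
  · refine (cnf_card E β).trans ((Nat.mul_le_mul_right _ hιM).trans (le_of_eq ?_))
    clear hn3 hn4
    generalize 2 ^ 201 = a
    ring
  · intro L Γ hD hemp
    by_contra hlt
    rw [not_le] at hlt
    obtain ⟨ρ, hL, hρ⟩ := restriction_exists (M := t) (le_trans (by norm_num) h20) 31
      (t * (t + 2)) E L (num_restr ht0 hlt hιM hn4)
    have hSE := expand_of (θ := 140) (ρ := ρ) (c := 186) hA (by
      intro j
      have := hρ j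
      clear hn3 hn4
      omega)
    exact no_refutation (w := t * (t + 2)) hSE hprop hD4 (by norm_num) (by decide)
      (by norm_num) le_rfl (le_trans (by norm_num) (num_w h20)) (num_w h20) hβ hD hL hemp

end Pool.Agent.SR
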